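import Mathlib

set_option autoImplicit false

namespace Pool.Agent.L0h52.TB

/-- `x i t` is the position at time `t` of body `i` (three bodies `0, 1, 2` in the plane `ℂ`).
Newton's equations `m_i x_i'' = ∂U/∂x_i`, `U = ∑_{i<j} m_i m_j / |x_i - x_j|`, hold for all
times, i.e. `x_i'' = ∑_{j ≠ i} m_j (x_j - x_i) / |x_j - x_i|^3`. -/
def IsSolution (m : Fin 3 → ℝ) (x : Fin 3 → ℝ → ℂ) : Prop :=
  ∃ v : Fin 3 → ℝ → ℂ, (∀ i t, HasDerivAt (x i) (v i t) t) ∧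
    ∀ i t, HasDerivAt (v i)
      (∑ j ∈ Finset.univ.erase i,
        (m j : ℂ) * (x j t - x i t) / ((‖x j t - x i t‖ : ℝ) : ℂ) ^ 3) t

/-- no two bodies ever meet -/
def CollisionFree (x : Fin 3 → ℝ → ℂ) : Prop :=
  ∀ i j, i ≠ j → ∀ t, x i t ≠ x j t

/-- the winding number about `0` of the curve `γ` on `[0, T]` is `k`: a continuous choice of the
argument of `γ` on `[0, T]` increases by `2 π k` -/
def HasDegree (γ : ℝ → ℂ) (T : ℝ) (k : ℤ) : Prop :=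
  ∃ φ : ℝ → ℝ, ContinuousOn φ (Set.Icc 0 T) ∧
    (∀ t ∈ Set.Icc 0 T, γ t = ((‖γ t‖ : ℝ) : ℂ) * Complex.exp ((φ t : ℂ) * Complex.I)) ∧
    φ T - φ 0 = 2 * Real.pi * k

/-- `x` is a collision-free `T`-periodic loop of the homology class
`(k₁₂, k₂₃, k₃₁) = (1, 0, -1)`, with centre of mass at the origin (the bodies are numbered
`0, 1, 2` instead of `1, 2, 3`). -/
def InClass (m : Fin 3 → ℝ) (T : ℝ) (x : Fin 3 → ℝ → ℂ) : Prop :=
  (∀ t, ∑ i, (m i : ℂ) * x i t = 0) ∧ (∀ i t, x i (t + T) = x i t) ∧ CollisionFree x ∧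
    HasDegree (fun t => x 0 t - x 1 t) T 1 ∧
    HasDegree (fun t => x 1 t - x 2 t) T 0 ∧
    HasDegree (fun t => x 2 t - x 0 t) T (-1)

/-- the kinetic energy at time `t` -/
noncomputable def kin (m : Fin 3 → ℝ) (x : Fin 3 → ℝ → ℂ) (t : ℝ) : ℝ :=
  1 / 2 * ∑ i, m i * ‖deriv (x i) t‖ ^ 2

/-- the Newtonian potential `U = ∑_{i<j} m_i m_j / |x_i - x_j|` at time `t` -/
noncomputable def pot (m : Fin 3 → ℝ) (x : Fin 3 → ℝ → ℂ) (t : ℝ) : ℝ :=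
  m 0 * m 1 / ‖x 0 t - x 1 t‖ + m 1 * m 2 / ‖x 1 t - x 2 t‖ + m 2 * m 0 / ‖x 2 t - x 0 t‖

/-- the action `∫₀ᵀ (K + U) dt` -/
noncomputable def action (m : Fin 3 → ℝ) (T : ℝ) (x : Fin 3 → ℝ → ℂ) : ℝ :=
  ∫ t in (0 : ℝ)..T, (kin m x t + pot m x t)

end Pool.Agent.L0h52.TB
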