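import Pool.Agent.L0h52.TB.Defs

set_option autoImplicit false

open Set Filter Topology

namespace Pool.Agent.L0h52.TB

theorem degree_of_factors {γ g₁ g₂ : ℝ → ℂ} {T w : ℝ} (n : ℤ) (c : ℂ) (hw : w * T = 2 * Real.pi)
    (c1 : Continuous g₁) (c2 : Continuous g₂) (s1 : ∀ t, g₁ t ∈ Complex.slitPlane)
    (s2 : ∀ t, g₂ t ∈ Complex.slitPlane) (p1 : g₁ T = g₁ 0) (p2 : g₂ T = g₂ 0)
    (h : ∀ t, γ t = c * Complex.exp (((n * (w * t) : ℝ) : ℂ) * Complex.I) * g₁ t * g₂ t) :
    HasDegree γ T n := by
  refine ⟨fun t => Complex.arg c + n * (w * t) + Complex.arg (g₁ t) + Complex.arg (g₂ t), ?_, ?_, ?_⟩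
  · have a1 : Continuous (fun t => Complex.arg (g₁ t)) := continuous_iff_continuousAt.mpr fun t =>
      ContinuousAt.comp (g := Complex.arg) (Complex.continuousAt_arg (s1 t)) c1.continuousAt
    have a2 : Continuous (fun t => Complex.arg (g₂ t)) := continuous_iff_continuousAt.mpr fun t =>
      ContinuousAt.comp (g := Complex.arg) (Complex.continuousAt_arg (s2 t)) c2.continuousAt
    exact (((by fun_prop : Continuous fun t : ℝ => Complex.arg c + n * (w * t)).add a1).add
      a2).continuousOn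
  · intro t _
    have hn : ‖γ t‖ = ‖c‖ * ‖g₁ t‖ * ‖g₂ t‖ := by
      rw [h t, norm_mul, norm_mul, norm_mul, Complex.norm_exp_ofReal_mul_I, mul_one]
    rw [hn]
    conv_lhs => rw [h t, ← Complex.norm_mul_exp_arg_mul_I c, ← Complex.norm_mul_exp_arg_mul_I (g₁ t),
      ← Complex.norm_mul_exp_arg_mul_I (g₂ t)]
    push_cast
    rw [add_mul, add_mul, add_mul, Complex.exp_add, Complex.exp_add, Complex.exp_add]
    ring
  · simp only
    rw [p1, p2, hw]
    ring

/-- the basic integral `∫₀ᵀ dt / ((1+q²)k + 2qk cos(wt)) = T / ((1-q²)k)` -/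
theorem integral_inv (T w q k : ℝ) (hw : w * T = 2 * Real.pi) (hw0 : 0 < w) (hq : |q| < 1)
    (hk : 0 < k) :
    ∫ t in (0 : ℝ)..T, ((1 + q ^ 2) * k + 2 * q * k * Real.cos (w * t))⁻¹ = T / ((1 - q ^ 2) * k) := by
  obtain ⟨q1, q2⟩ := abs_lt.mp hq
  have hq2 : 0 < 1 - q ^ 2 := by nlinarith
  set g : ℝ → ℂ := fun t => 1 + q * Complex.exp (((w * t : ℝ) : ℂ) * Complex.I) with hg
  have hre : ∀ t, 0 < (g t).re := by
    intro t
    have : (g t).re = 1 + q * Real.cos (w * t) := by
      simp [hg, Complex.exp_re]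
    rw [this]
    have h1 := Real.abs_cos_le_one (w * t)
    have h2 : |q * Real.cos (w * t)| < 1 := by
      rw [abs_mul]
      nlinarith [abs_nonneg q, abs_nonneg (Real.cos (w * t))]
    linarith [(abs_lt.mp h2).1]
  have hsl : ∀ t, g t ∈ Complex.slitPlane := fun t => Or.inl (hre t)
  have hg0 : ∀ t, g t ≠ 0 := fun t h => by have := hre t; rw [h] at this; simp at this
  have dg : ∀ t, HasDerivAt g (q * (Complex.exp (((w * t : ℝ) : ℂ) * Complex.I) * (w * Complex.I))) t := by
    intro t
    have h0 : HasDerivAt (fun t : ℝ => ((w * t : ℝ) : ℂ) * Complex.I) (w * Complex.I) t := by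
      have h1 : HasDerivAt (fun t : ℝ => ((w * t : ℝ) : ℂ)) (w : ℂ) t := by
        have := ((hasDerivAt_id t).const_mul w).ofReal_comp
        simpa using this
      exact h1.mul_const _
    have h2 := (h0.cexp.const_mul (q : ℂ)).const_add 1
    exact h2
  set H : ℝ → ℂ := fun t => (t : ℂ) + 2 * Complex.I / w * Complex.log (g t) with hH
  have dH : ∀ t, HasDerivAt H
      (1 + 2 * Complex.I / w * ((q * (Complex.exp (((w * t : ℝ) : ℂ) * Complex.I) *
        (w * Complex.I))) / g t)) t := by
    intro t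
    have h1 := (dg t).clog_real (hsl t)
    have h2 : HasDerivAt (fun t : ℝ => (t : ℂ)) 1 t := by
      simpa using (hasDerivAt_id t).ofReal_comp
    exact h2.add (h1.const_mul _)
  have key : ∀ t, ((1 + 2 * Complex.I / w * ((q * (Complex.exp (((w * t : ℝ) : ℂ) * Complex.I) *
        (w * Complex.I))) / g t) : ℂ)).re / ((1 - q ^ 2) * k) =
      ((1 + q ^ 2) * k + 2 * q * k * Real.cos (w * t))⁻¹ := by
    intro t
    set e : ℂ := Complex.exp (((w * t : ℝ) : ℂ) * Complex.I) with he
    have hwc : (w : ℂ) ≠ 0 := by exact_mod_cast hw0.ne'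
    have h1 : (1 + 2 * Complex.I / w * ((q * (e * (w * Complex.I))) / g t) : ℂ) =
        (1 - q * e) / (1 + q * e) := by
      have hge : g t = 1 + q * e := rfl
      rw [hge]
      have := hg0 t
      rw [hge] at this
      field_simp
      linear_combination (2 * q * e : ℂ) * Complex.I_sq
    have her : e.re = Real.cos (w * t) := by rw [he, Complex.exp_ofReal_mul_I_re]
    have hei : e.im = Real.sin (w * t) := by rw [he, Complex.exp_ofReal_mul_I_im]
    rw [h1, Complex.div_re]
    have hn : Complex.normSq (1 + q * e) = 1 + q ^ 2 + 2 * q * Real.cos (w * t) := by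
      rw [Complex.normSq_apply]
      simp only [Complex.add_re, Complex.one_re, Complex.mul_re, Complex.ofReal_re,
        Complex.ofReal_im, zero_mul, sub_zero, Complex.add_im, Complex.one_im, Complex.mul_im,
        add_zero, zero_add, her, hei]
      nlinarith [Real.sin_sq_add_cos_sq (w * t)]
    have hpos : 0 < 1 + q ^ 2 + 2 * q * Real.cos (w * t) := by
      rw [← hn]
      exact Complex.normSq_pos.mpr (hg0 t)
    rw [hn]
    simp only [Complex.add_re, Complex.one_re, Complex.mul_re, Complex.ofReal_re,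
        Complex.ofReal_im, zero_mul, sub_zero, Complex.add_im, Complex.one_im, Complex.mul_im,
        add_zero, zero_add, her, hei, Complex.sub_re, Complex.sub_im, zero_sub]
    have e1 : (1 + q ^ 2) * k + 2 * q * k * Real.cos (w * t) =
      k * (1 + q ^ 2 + 2 * q * Real.cos (w * t)) := by ring
    rw [e1]
    generalize hD : 1 + q ^ 2 + 2 * q * Real.cos (w * t) = D at hpos
    have hD0 : D ≠ 0 := hpos.ne'
    have hk0 : k ≠ 0 := hk.ne'
    field_simp
    nlinarith [Real.sin_sq_add_cos_sq (w * t)]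
  have hint : Continuous (fun t => ((1 + q ^ 2) * k + 2 * q * k * Real.cos (w * t))⁻¹) := by
    refine Continuous.inv₀ (by fun_prop) fun t => ?_
    have e1 : (1 + q ^ 2) * k + 2 * q * k * Real.cos (w * t) =
      k * (1 + q ^ 2 + 2 * q * Real.cos (w * t)) := by ring
    rw [e1]
    have h1 := Real.abs_cos_le_one (w * t)
    have h2 : |q * Real.cos (w * t)| ≤ |q| := by
      rw [abs_mul]
      nlinarith [abs_nonneg q, abs_nonneg (Real.cos (w * t))]
    have h3 := (abs_le.mp h2).1
    have h4 : 0 < (1 - |q|) ^ 2 := by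
      have : 0 < 1 - |q| := by linarith
      positivity
    have h5 : |q| ^ 2 = q ^ 2 := sq_abs q
    have h6 : 0 < 1 + q ^ 2 + 2 * q * Real.cos (w * t) := by nlinarith
    positivity
  have dR : ∀ t, HasDerivAt (fun t => (H t).re / ((1 - q ^ 2) * k))
      (((1 + q ^ 2) * k + 2 * q * k * Real.cos (w * t))⁻¹) t := by
    intro t
    rw [← key t]
    exact (Complex.reCLM.hasFDerivAt.comp_hasDerivAt t (dH t)).div_const _
  rw [intervalIntegral.integral_eq_sub_of_hasDerivAt (fun t _ => dR t)
    (hint.intervalIntegrable _ _)]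
  have gT : g T = g 0 := by
    simp only [hg, hw, mul_zero]
    have : (((2 * Real.pi : ℝ) : ℂ) * Complex.I) = 2 * Real.pi * Complex.I := by push_cast; ring
    rw [this, Complex.exp_two_pi_mul_I]
    simp
  have : (H T).re - (H 0).re = T := by
    simp only [hH, gT]
    simp
  rw [← sub_div, this]

theorem integral_sin_sq' (T w : ℝ) (hw : w * T = 2 * Real.pi) (hw0 : 0 < w) :
    ∫ t in (0 : ℝ)..T, Real.sin (w * t) ^ 2 = T / 2 := by
  have h1 := intervalIntegral.integral_comp_mul_left (a := 0) (b := T)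
    (fun x => Real.sin x ^ 2) hw0.ne'
  rw [h1, mul_zero, hw, integral_sin_sq]
  have : T = 2 * Real.pi / w := by field_simp; linarith
  rw [this]
  simp
  field_simp

theorem integral_cos_sq' (T w : ℝ) (hw : w * T = 2 * Real.pi) (hw0 : 0 < w) :
    ∫ t in (0 : ℝ)..T, Real.cos (w * t) ^ 2 = T / 2 := by
  have h1 := intervalIntegral.integral_comp_mul_left (a := 0) (b := T)
    (fun x => Real.cos x ^ 2) hw0.ne'
  rw [h1, mul_zero, hw, integral_cos_sq]
  have : T = 2 * Real.pi / w := by field_simp; linarith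
  rw [this]
  simp
  field_simp

end Pool.Agent.L0h52.TB
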