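import Pool.Agent.L0h52.TB.Loop

set_option autoImplicit false

open Set Filter Topology

namespace Pool.Agent.L0h52.TB

/-- relative position of bodies 1 and 0 on the test loop -/
noncomputable def uu (A B C w : ℝ) (t : ℝ) : ℂ :=
  ((A + B * Real.cos (w * t) : ℝ) : ℂ) + ((C * Real.sin (w * t) : ℝ) : ℂ) * Complex.I

/-- relative position of bodies 2 and 0 on the test loop -/
noncomputable def vv (A B C w : ℝ) (t : ℝ) : ℂ :=
  ((-A + B * Real.cos (w * t) : ℝ) : ℂ) + ((-(C * Real.sin (w * t)) : ℝ) : ℂ) * Complex.I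

/-- the test loop -/
noncomputable def yy (m : Fin 3 → ℝ) (A B C w : ℝ) : Fin 3 → ℝ → ℂ :=
  ![fun t => ((-(m 1) / (m 0 + m 1 + m 2) : ℝ) : ℂ) * uu A B C w t +
      ((-(m 2) / (m 0 + m 1 + m 2) : ℝ) : ℂ) * vv A B C w t,
    fun t => (((m 0 + m 2) / (m 0 + m 1 + m 2) : ℝ) : ℂ) * uu A B C w t +
      ((-(m 2) / (m 0 + m 1 + m 2) : ℝ) : ℂ) * vv A B C w t,
    fun t => ((-(m 1) / (m 0 + m 1 + m 2) : ℝ) : ℂ) * uu A B C w t +
      (((m 0 + m 1) / (m 0 + m 1 + m 2) : ℝ) : ℂ) * vv A B C w t]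

theorem cd_uu (A B C w : ℝ) : ContDiff ℝ ⊤ (uu A B C w) := by
  unfold uu
  have h1 : ContDiff ℝ ⊤ (fun t : ℝ => A + B * Real.cos (w * t)) := by fun_prop
  have h2 : ContDiff ℝ ⊤ (fun t : ℝ => C * Real.sin (w * t)) := by fun_prop
  exact (Complex.ofRealCLM.contDiff.comp h1).add ((Complex.ofRealCLM.contDiff.comp h2).mul
    contDiff_const)

theorem cd_vv (A B C w : ℝ) : ContDiff ℝ ⊤ (vv A B C w) := by
  unfold vv
  have h1 : ContDiff ℝ ⊤ (fun t : ℝ => -A + B * Real.cos (w * t)) := by fun_prop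
  have h2 : ContDiff ℝ ⊤ (fun t : ℝ => -(C * Real.sin (w * t))) := by fun_prop
  exact (Complex.ofRealCLM.contDiff.comp h1).add ((Complex.ofRealCLM.contDiff.comp h2).mul
    contDiff_const)

theorem dc (w t : ℝ) : HasDerivAt (fun t => Real.cos (w * t)) (-(w * Real.sin (w * t))) t := by
  have h1 : HasDerivAt (fun t : ℝ => w * t) w t := by simpa using (hasDerivAt_id t).const_mul w
  exact h1.cos.congr_deriv (by ring)

theorem ds (w t : ℝ) : HasDerivAt (fun t => Real.sin (w * t)) (w * Real.cos (w * t)) t := by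
  have h1 : HasDerivAt (fun t : ℝ => w * t) w t := by simpa using (hasDerivAt_id t).const_mul w
  exact h1.sin.congr_deriv (by ring)

theorem d_uu (A B C w t : ℝ) : HasDerivAt (uu A B C w)
    (((-(B * w * Real.sin (w * t)) : ℝ) : ℂ) + ((C * w * Real.cos (w * t) : ℝ) : ℂ) * Complex.I) t := by
  have h1 : HasDerivAt (fun t : ℝ => A + B * Real.cos (w * t)) (-(B * w * Real.sin (w * t))) t :=
    (((dc w t).const_mul B).const_add A).congr_deriv (by ring)
  have h2 : HasDerivAt (fun t : ℝ => C * Real.sin (w * t)) (C * w * Real.cos (w * t)) t :=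
    ((ds w t).const_mul C).congr_deriv (by ring)
  exact h1.ofReal_comp.add (h2.ofReal_comp.mul_const _)

theorem d_vv (A B C w t : ℝ) : HasDerivAt (vv A B C w)
    (((-(B * w * Real.sin (w * t)) : ℝ) : ℂ) + ((-(C * w * Real.cos (w * t)) : ℝ) : ℂ) * Complex.I) t := by
  have h1 : HasDerivAt (fun t : ℝ => -A + B * Real.cos (w * t)) (-(B * w * Real.sin (w * t))) t :=
    (((dc w t).const_mul B).const_add (-A)).congr_deriv (by ring)
  have h2 : HasDerivAt (fun t : ℝ => -(C * Real.sin (w * t))) (-(C * w * Real.cos (w * t))) t :=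
    (((ds w t).const_mul C).neg).congr_deriv (by ring)
  exact h1.ofReal_comp.add (h2.ofReal_comp.mul_const _)

theorem nsq (a b : ℝ) : ‖((a : ℂ) + (b : ℂ) * Complex.I)‖ ^ 2 = a ^ 2 + b ^ 2 := by
  rw [← Complex.normSq_eq_norm_sq, Complex.normSq_add_mul_I]

theorem norm_uu {A B C : ℝ} (w : ℝ) (hB : B ^ 2 = A ^ 2 + C ^ 2) (hBA : |A| ≤ B) (t : ℝ) :
    ‖uu A B C w t‖ = B + A * Real.cos (w * t) := by
  have h1 := Real.abs_cos_le_one (w * t)
  have h2 : |A * Real.cos (w * t)| ≤ |A| := by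
    rw [abs_mul]
    nlinarith [abs_nonneg A, abs_nonneg (Real.cos (w * t))]
  have h3 := (abs_le.mp h2).1
  have h0 : 0 ≤ B + A * Real.cos (w * t) := by linarith
  rw [← abs_of_nonneg h0, ← abs_of_nonneg (norm_nonneg (uu A B C w t)), ← sq_eq_sq_iff_abs_eq_abs]
  unfold uu
  rw [nsq]
  nlinarith [Real.sin_sq_add_cos_sq (w * t)]

theorem norm_vv {A B C : ℝ} (w : ℝ) (hB : B ^ 2 = A ^ 2 + C ^ 2) (hBA : |A| ≤ B) (t : ℝ) :
    ‖vv A B C w t‖ = B - A * Real.cos (w * t) := by
  have h1 := Real.abs_cos_le_one (w * t)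
  have h2 : |A * Real.cos (w * t)| ≤ |A| := by
    rw [abs_mul]
    nlinarith [abs_nonneg A, abs_nonneg (Real.cos (w * t))]
  have h3 := (abs_le.mp h2).2
  have h0 : 0 ≤ B - A * Real.cos (w * t) := by linarith
  rw [← abs_of_nonneg h0, ← abs_of_nonneg (norm_nonneg (vv A B C w t)), ← sq_eq_sq_iff_abs_eq_abs]
  unfold vv
  rw [nsq]
  nlinarith [Real.sin_sq_add_cos_sq (w * t)]

theorem norm_uv (A B C w t : ℝ) (hA : 0 < A) : 2 * A ≤ ‖uu A B C w t - vv A B C w t‖ := by
  have h : (uu A B C w t - vv A B C w t).re = 2 * A := by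
    simp [uu, vv, -Complex.ofReal_sin, -Complex.ofReal_cos, -Complex.ofReal_mul,
      -Complex.ofReal_add, -Complex.ofReal_neg]
    ring
  have := Complex.abs_re_le_norm (uu A B C w t - vv A B C w t)
  rw [h, abs_of_pos (by linarith)] at this
  exact this

theorem exp_cs (r : ℝ) : Complex.exp ((r : ℂ) * Complex.I) =
    (Real.cos r : ℂ) + (Real.sin r : ℂ) * Complex.I := by
  rw [Complex.exp_mul_I]; push_cast; rfl

section
variable {m : Fin 3 → ℝ} {T A B C w q k : ℝ}

theorem deg_uu (hw : w * T = 2 * Real.pi) (hq : |q| < 1)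
    (hA : A = 2 * q * k) (hB : B = (1 + q ^ 2) * k) (hC : C = (1 - q ^ 2) * k) (c : ℂ) :
    HasDegree (fun t => c * uu A B C w t) T 1 := by
  refine degree_of_factors (w := w) (g₁ := fun t => 1 + q * ((Real.cos (w * t) : ℂ) -
      (Real.sin (w * t) : ℂ) * Complex.I)) (g₂ := fun t => 1 + q * ((Real.cos (w * t) : ℂ) -
      (Real.sin (w * t) : ℂ) * Complex.I)) 1 (c * k) hw ?_ ?_ ?_ ?_ ?_ ?_ ?_
  · fun_prop
  · fun_prop
  · intro t
    left
    have h1 := Real.abs_cos_le_one (w * t)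
    have h2 : |q * Real.cos (w * t)| < 1 := by
      rw [abs_mul]
      nlinarith [abs_nonneg q, abs_nonneg (Real.cos (w * t))]
    have e : (1 + q * ((Real.cos (w * t) : ℂ) - (Real.sin (w * t) : ℂ) * Complex.I) : ℂ).re =
      1 + q * Real.cos (w * t) := by simp [-Complex.ofReal_cos, -Complex.ofReal_sin]
    rw [e]
    linarith [(abs_lt.mp h2).1]
  · intro t
    left
    have h1 := Real.abs_cos_le_one (w * t)
    have h2 : |q * Real.cos (w * t)| < 1 := by
      rw [abs_mul]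
      nlinarith [abs_nonneg q, abs_nonneg (Real.cos (w * t))]
    have e : (1 + q * ((Real.cos (w * t) : ℂ) - (Real.sin (w * t) : ℂ) * Complex.I) : ℂ).re =
      1 + q * Real.cos (w * t) := by simp [-Complex.ofReal_cos, -Complex.ofReal_sin]
    rw [e]
    linarith [(abs_lt.mp h2).1]
  · rw [hw, mul_zero, Real.cos_two_pi, Real.sin_two_pi, Real.cos_zero, Real.sin_zero]
  · rw [hw, mul_zero, Real.cos_two_pi, Real.sin_two_pi, Real.cos_zero, Real.sin_zero]
  · intro t
    rw [exp_cs]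
    unfold uu
    have hs : ((Real.sin (w * t) : ℂ)) ^ 2 + ((Real.cos (w * t) : ℂ)) ^ 2 = 1 := by
      exact_mod_cast Real.sin_sq_add_cos_sq (w * t)
    rw [hA, hB, hC]
    have h1 : (((1 : ℤ) : ℝ) * (w * t)) = w * t := by push_cast; ring
    rw [h1]
    push_cast
    push_cast at hs
    set cc := Complex.cos (w * t)
    set ss := Complex.sin (w * t)
    have hI := Complex.I_sq
    linear_combination (-(c * k * (q ^ 2 * (cc - ss * Complex.I) + 2 * q))) * hs + (c * k * ss ^ 2 * (2 * q + q ^ 2 * (cc - ss * Complex.I))) * hI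

theorem deg_vv (hw : w * T = 2 * Real.pi) (hq : |q| < 1)
    (hA : A = 2 * q * k) (hB : B = (1 + q ^ 2) * k) (hC : C = (1 - q ^ 2) * k) (c : ℂ) :
    HasDegree (fun t => c * vv A B C w t) T (-1) := by
  refine degree_of_factors (w := w) (g₁ := fun t => 1 - q * ((Real.cos (w * t) : ℂ) +
      (Real.sin (w * t) : ℂ) * Complex.I)) (g₂ := fun t => 1 - q * ((Real.cos (w * t) : ℂ) +
      (Real.sin (w * t) : ℂ) * Complex.I)) (-1) (c * k) hw ?_ ?_ ?_ ?_ ?_ ?_ ?_
  · fun_prop
  · fun_prop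
  · intro t
    left
    have h1 := Real.abs_cos_le_one (w * t)
    have h2 : |q * Real.cos (w * t)| < 1 := by
      rw [abs_mul]
      nlinarith [abs_nonneg q, abs_nonneg (Real.cos (w * t))]
    have e : (1 - q * ((Real.cos (w * t) : ℂ) + (Real.sin (w * t) : ℂ) * Complex.I) : ℂ).re =
      1 - q * Real.cos (w * t) := by simp [-Complex.ofReal_cos, -Complex.ofReal_sin]
    rw [e]
    linarith [(abs_lt.mp h2).2]
  · intro t
    left
    have h1 := Real.abs_cos_le_one (w * t)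
    have h2 : |q * Real.cos (w * t)| < 1 := by
      rw [abs_mul]
      nlinarith [abs_nonneg q, abs_nonneg (Real.cos (w * t))]
    have e : (1 - q * ((Real.cos (w * t) : ℂ) + (Real.sin (w * t) : ℂ) * Complex.I) : ℂ).re =
      1 - q * Real.cos (w * t) := by simp [-Complex.ofReal_cos, -Complex.ofReal_sin]
    rw [e]
    linarith [(abs_lt.mp h2).2]
  · rw [hw, mul_zero, Real.cos_two_pi, Real.sin_two_pi, Real.cos_zero, Real.sin_zero]
  · rw [hw, mul_zero, Real.cos_two_pi, Real.sin_two_pi, Real.cos_zero, Real.sin_zero]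
  · intro t
    rw [exp_cs]
    unfold vv
    have hs : ((Real.sin (w * t) : ℂ)) ^ 2 + ((Real.cos (w * t) : ℂ)) ^ 2 = 1 := by
      exact_mod_cast Real.sin_sq_add_cos_sq (w * t)
    rw [hA, hB, hC]
    have h1 : (((-1 : ℤ) : ℝ) * (w * t)) = -(w * t) := by push_cast; ring
    rw [h1, Real.cos_neg, Real.sin_neg]
    push_cast
    push_cast at hs
    set cc := Complex.cos (w * t)
    set ss := Complex.sin (w * t)
    have hI := Complex.I_sq
    linear_combination (-(c * k * (q ^ 2 * (cc + ss * Complex.I) - 2 * q))) * hs + (c * k * ss ^ 2 * (-2 * q + q ^ 2 * (cc + ss * Complex.I))) * hI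

theorem deg_uv (hw : w * T = 2 * Real.pi) (hA : 0 < A) :
    HasDegree (fun t => uu A B C w t - vv A B C w t) T 0 := by
  refine degree_of_factors (w := w) (g₁ := fun t => ((2 * A : ℝ) : ℂ) + ((2 * C * Real.sin (w * t) : ℝ) : ℂ)
      * Complex.I) (g₂ := fun _ => 1) 0 1 hw ?_ ?_ ?_ ?_ ?_ ?_ ?_
  · fun_prop
  · fun_prop
  · intro t
    left
    have e : (((2 * A : ℝ) : ℂ) + ((2 * C * Real.sin (w * t) : ℝ) : ℂ) * Complex.I : ℂ).re =
      2 * A := by simp [-Complex.ofReal_mul]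
    rw [e]
    linarith
  · intro t
    left; simp
  · rw [hw, mul_zero, Real.sin_two_pi, Real.sin_zero]
  · rfl
  · intro t
    unfold uu vv
    push_cast
    simp
    ring

end

end Pool.Agent.L0h52.TB
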