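import Pool.Agent.L0h52.TB.Loop2

set_option autoImplicit false

open Set Filter Topology

namespace Pool.Agent.L0h52.TB

section
variable {m : Fin 3 → ℝ} {T A B C w q k : ℝ}

theorem yy0 (t : ℝ) : yy m A B C w 0 t = ((-(m 1) / (m 0 + m 1 + m 2) : ℝ) : ℂ) * uu A B C w t +
      ((-(m 2) / (m 0 + m 1 + m 2) : ℝ) : ℂ) * vv A B C w t := rfl
theorem yy1 (t : ℝ) : yy m A B C w 1 t = (((m 0 + m 2) / (m 0 + m 1 + m 2) : ℝ) : ℂ) * uu A B C w t +
      ((-(m 2) / (m 0 + m 1 + m 2) : ℝ) : ℂ) * vv A B C w t := rfl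
theorem yy2 (t : ℝ) : yy m A B C w 2 t = ((-(m 1) / (m 0 + m 1 + m 2) : ℝ) : ℂ) * uu A B C w t +
      (((m 0 + m 1) / (m 0 + m 1 + m 2) : ℝ) : ℂ) * vv A B C w t := rfl

theorem yy01 (hM : m 0 + m 1 + m 2 ≠ 0) (t : ℝ) :
    yy m A B C w 0 t - yy m A B C w 1 t = (-1) * uu A B C w t := by
  have hM' : (m 0 + m 1 + m 2 : ℂ) ≠ 0 := by exact_mod_cast hM
  rw [yy0, yy1]
  push_cast
  field_simp
  ring

theorem yy20 (hM : m 0 + m 1 + m 2 ≠ 0) (t : ℝ) :
    yy m A B C w 2 t - yy m A B C w 0 t = 1 * vv A B C w t := by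
  have hM' : (m 0 + m 1 + m 2 : ℂ) ≠ 0 := by exact_mod_cast hM
  rw [yy0, yy2]
  push_cast
  field_simp
  ring

theorem yy12 (hM : m 0 + m 1 + m 2 ≠ 0) (t : ℝ) :
    yy m A B C w 1 t - yy m A B C w 2 t = uu A B C w t - vv A B C w t := by
  have hM' : (m 0 + m 1 + m 2 : ℂ) ≠ 0 := by exact_mod_cast hM
  rw [yy1, yy2]
  push_cast
  field_simp
  ring

theorem cd_yy (i : Fin 3) : ContDiff ℝ ⊤ (yy m A B C w i) := by
  have hu := cd_uu A B C w
  have hv := cd_vv A B C w
  fin_cases i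
  · exact (contDiff_const.mul hu).add (contDiff_const.mul hv)
  · exact (contDiff_const.mul hu).add (contDiff_const.mul hv)
  · exact (contDiff_const.mul hu).add (contDiff_const.mul hv)

theorem d_comb (a b t : ℝ) : HasDerivAt (fun t => (a : ℂ) * uu A B C w t + (b : ℂ) * vv A B C w t)
    (((-((a + b) * (B * w * Real.sin (w * t))) : ℝ) : ℂ) +
      (((a - b) * (C * w * Real.cos (w * t)) : ℝ) : ℂ) * Complex.I) t := by
  refine (((d_uu A B C w t).const_mul (a : ℂ)).add ((d_vv A B C w t).const_mul (b : ℂ))).congr_deriv ?_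
  push_cast
  ring

theorem n_comb (a b t : ℝ) : ‖deriv (fun t => (a : ℂ) * uu A B C w t + (b : ℂ) * vv A B C w t) t‖ ^ 2 =
    (a + b) ^ 2 * (B * w * Real.sin (w * t)) ^ 2 + (a - b) ^ 2 * (C * w * Real.cos (w * t)) ^ 2 := by
  rw [(d_comb a b t).deriv, nsq]
  ring

theorem kin_yy (hM : 0 < m 0 + m 1 + m 2) (t : ℝ) : kin m (yy m A B C w) t =
    w ^ 2 / (2 * (m 0 + m 1 + m 2)) * (m 0 * (m 1 + m 2) * B ^ 2 * Real.sin (w * t) ^ 2 +
      (m 0 * (m 1 + m 2) + 4 * (m 1 * m 2)) * C ^ 2 * Real.cos (w * t) ^ 2) := by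
  unfold kin
  rw [Fin.sum_univ_three]
  have e0 := n_comb (A := A) (B := B) (C := C) (w := w) (-(m 1) / (m 0 + m 1 + m 2))
    (-(m 2) / (m 0 + m 1 + m 2)) t
  have e1 := n_comb (A := A) (B := B) (C := C) (w := w) ((m 0 + m 2) / (m 0 + m 1 + m 2))
    (-(m 2) / (m 0 + m 1 + m 2)) t
  have e2 := n_comb (A := A) (B := B) (C := C) (w := w) (-(m 1) / (m 0 + m 1 + m 2))
    ((m 0 + m 1) / (m 0 + m 1 + m 2)) t
  have f0 : yy m A B C w 0 = fun t => ((-(m 1) / (m 0 + m 1 + m 2) : ℝ) : ℂ) * uu A B C w t +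
      ((-(m 2) / (m 0 + m 1 + m 2) : ℝ) : ℂ) * vv A B C w t := rfl
  have f1 : yy m A B C w 1 = fun t => (((m 0 + m 2) / (m 0 + m 1 + m 2) : ℝ) : ℂ) * uu A B C w t +
      ((-(m 2) / (m 0 + m 1 + m 2) : ℝ) : ℂ) * vv A B C w t := rfl
  have f2 : yy m A B C w 2 = fun t => ((-(m 1) / (m 0 + m 1 + m 2) : ℝ) : ℂ) * uu A B C w t +
      (((m 0 + m 1) / (m 0 + m 1 + m 2) : ℝ) : ℂ) * vv A B C w t := rfl
  rw [f0, f1, f2, e0, e1, e2]
  have hM' := hM.ne'
  field_simp
  ring

theorem period_uu (hw : w * T = 2 * Real.pi) (t : ℝ) : uu A B C w (t + T) = uu A B C w t := by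
  unfold uu
  rw [mul_add, hw, Real.cos_add_two_pi, Real.sin_add_two_pi]

theorem period_vv (hw : w * T = 2 * Real.pi) (t : ℝ) : vv A B C w (t + T) = vv A B C w t := by
  unfold vv
  rw [mul_add, hw, Real.cos_add_two_pi, Real.sin_add_two_pi]

theorem loop (m : Fin 3 → ℝ) (hm : ∀ i, 0 < m i) (T : ℝ) (hT : 0 < T) (A C : ℝ) (hA : 0 < A)
    (hC : 0 < C) : ∃ y : Fin 3 → ℝ → ℂ, (∀ i, ContDiff ℝ ⊤ (y i)) ∧ InClass m T y ∧
    action m T y ≤ T * ((2 * Real.pi / T) ^ 2 / (4 * (m 0 + m 1 + m 2)) *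
      (m 0 * (m 1 + m 2) * (A ^ 2 + 2 * C ^ 2) + 4 * (m 1 * m 2) * C ^ 2) +
      m 0 * (m 1 + m 2) / C + m 1 * m 2 / (2 * A)) := by
  have hpi := Real.pi_pos
  set w := 2 * Real.pi / T with hwdef
  have hw0 : 0 < w := by positivity
  have hw : w * T = 2 * Real.pi := by rw [hwdef]; field_simp
  set B := Real.sqrt (A ^ 2 + C ^ 2) with hBdef
  have hB2 : B ^ 2 = A ^ 2 + C ^ 2 := Real.sq_sqrt (by positivity)
  have hB0 : 0 < B := Real.sqrt_pos.mpr (by positivity)
  have hBA : A < B := by nlinarith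
  have hBC : C < B := by nlinarith
  set q := (B - C) / A with hq
  set k := (B + C) / 2 with hk
  have hk0 : 0 < k := by positivity
  have hq0 : 0 < q := div_pos (by linarith) hA
  have hq1 : q < 1 := by
    rw [hq, div_lt_one hA]
    nlinarith
  have hqa : |q| < 1 := by rw [abs_of_pos hq0]; exact hq1
  have eA : A = 2 * q * k := by
    rw [hq, hk]
    field_simp
    nlinarith
  have e2 : q ^ 2 * (B + C) = B - C := by
    rw [hq]
    field_simp
    nlinarith
  have eB : B = (1 + q ^ 2) * k := by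
    rw [hk]
    nlinarith
  have eC : C = (1 - q ^ 2) * k := by
    rw [hk]
    nlinarith
  have m0 := hm 0
  have m1 := hm 1
  have m2 := hm 2
  have hM : 0 < m 0 + m 1 + m 2 := by linarith
  have hMne := hM.ne'
  have hBA' : |A| ≤ B := by rw [abs_of_pos hA]; exact hBA.le
  have pu : ∀ t, 0 < B + A * Real.cos (w * t) := by
    intro t
    nlinarith [Real.neg_one_le_cos (w * t)]
  have pv : ∀ t, 0 < B - A * Real.cos (w * t) := by
    intro t
    nlinarith [Real.cos_le_one (w * t)]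
  have nu : ∀ t, ‖uu A B C w t‖ = B + A * Real.cos (w * t) := norm_uu w hB2 hBA'
  have nv : ∀ t, ‖vv A B C w t‖ = B - A * Real.cos (w * t) := norm_vv w hB2 hBA'
  have u0 : ∀ t, uu A B C w t ≠ 0 := fun t h => by
    have := nu t; rw [h, norm_zero] at this; linarith [pu t]
  have v0 : ∀ t, vv A B C w t ≠ 0 := fun t h => by
    have := nv t; rw [h, norm_zero] at this; linarith [pv t]
  have uv0 : ∀ t, uu A B C w t - vv A B C w t ≠ 0 := fun t h => by
    have := norm_uv A B C w t hA; rw [h, norm_zero] at this; linarith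
  have y01 : ∀ t, yy m A B C w 0 t ≠ yy m A B C w 1 t := fun t h => by
    have h1 := yy01 (A := A) (B := B) (C := C) (w := w) hMne t
    rw [h, sub_self] at h1
    exact u0 t (by linear_combination h1)
  have y20 : ∀ t, yy m A B C w 2 t ≠ yy m A B C w 0 t := fun t h => by
    have h1 := yy20 (A := A) (B := B) (C := C) (w := w) hMne t
    rw [h, sub_self] at h1
    exact v0 t (by linear_combination -h1)
  have y12 : ∀ t, yy m A B C w 1 t ≠ yy m A B C w 2 t := fun t h => by
    have h1 := yy12 (A := A) (B := B) (C := C) (w := w) hMne t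
    rw [h, sub_self] at h1
    exact uv0 t h1.symm
  refine ⟨yy m A B C w, cd_yy, ⟨?_, ?_, ?_, ?_, ?_, ?_⟩, ?_⟩
  · intro t
    rw [Fin.sum_univ_three, yy0, yy1, yy2]
    have hM' : (m 0 + m 1 + m 2 : ℂ) ≠ 0 := by exact_mod_cast hMne
    push_cast
    field_simp
    ring
  · intro i t
    fin_cases i
    · show yy m A B C w 0 (t + T) = yy m A B C w 0 t
      rw [yy0, yy0, period_uu hw, period_vv hw]
    · show yy m A B C w 1 (t + T) = yy m A B C w 1 t
      rw [yy1, yy1, period_uu hw, period_vv hw]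
    · show yy m A B C w 2 (t + T) = yy m A B C w 2 t
      rw [yy2, yy2, period_uu hw, period_vv hw]
  · intro i j hij t
    fin_cases i <;> fin_cases j
    · exact absurd rfl hij
    · exact y01 t
    · exact (y20 t).symm
    · exact (y01 t).symm
    · exact absurd rfl hij
    · exact y12 t
    · exact y20 t
    · exact (y12 t).symm
    · exact absurd rfl hij
  · have := deg_uu (T := T) hw hqa eA eB eC (-1)
    have e : (fun t => yy m A B C w 0 t - yy m A B C w 1 t) = fun t => (-1) * uu A B C w t :=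
      funext fun t => yy01 hMne t
    rw [e]; exact this
  · have := deg_uv (T := T) (A := A) (B := B) (C := C) hw hA
    have e : (fun t => yy m A B C w 1 t - yy m A B C w 2 t) =
        fun t => uu A B C w t - vv A B C w t := funext fun t => yy12 hMne t
    rw [e]; exact this
  · have := deg_vv (T := T) hw hqa eA eB eC 1
    have e : (fun t => yy m A B C w 2 t - yy m A B C w 0 t) = fun t => 1 * vv A B C w t :=
      funext fun t => yy20 hMne t
    rw [e]; exact this
  -- the action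
  have ikin : ∀ t, kin m (yy m A B C w) t + pot m (yy m A B C w) t =
      w ^ 2 / (2 * (m 0 + m 1 + m 2)) * (m 0 * (m 1 + m 2) * B ^ 2 * Real.sin (w * t) ^ 2 +
      (m 0 * (m 1 + m 2) + 4 * (m 1 * m 2)) * C ^ 2 * Real.cos (w * t) ^ 2) +
      (m 0 * m 1 * (B + A * Real.cos (w * t))⁻¹ +
        m 1 * m 2 * ‖uu A B C w t - vv A B C w t‖⁻¹ +
        m 2 * m 0 * (B - A * Real.cos (w * t))⁻¹) := by
    intro t
    rw [kin_yy hM]
    unfold pot
    rw [yy01 hMne, yy20 hMne, yy12 hMne, norm_mul, norm_mul, norm_neg, norm_one, one_mul, one_mul,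
      nu t, nv t]
    simp only [div_eq_mul_inv]
  set f1 : ℝ → ℝ := fun t => Real.sin (w * t) ^ 2 with hf1
  set f2 : ℝ → ℝ := fun t => Real.cos (w * t) ^ 2 with hf2
  set f3 : ℝ → ℝ := fun t => (B + A * Real.cos (w * t))⁻¹ with hf3
  set f4 : ℝ → ℝ := fun t => (B - A * Real.cos (w * t))⁻¹ with hf4
  have cf1 : Continuous f1 := by fun_prop
  have cf2 : Continuous f2 := by fun_prop
  have cf3 : Continuous f3 := Continuous.inv₀ (by fun_prop) fun t => (pu t).ne'
  have cf4 : Continuous f4 := Continuous.inv₀ (by fun_prop) fun t => (pv t).ne'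
  have cu : Continuous (uu A B C w) := (cd_uu A B C w).continuous
  have cv : Continuous (vv A B C w) := (cd_vv A B C w).continuous
  have cf5 : Continuous (fun t => ‖uu A B C w t - vv A B C w t‖⁻¹) :=
    Continuous.inv₀ (by fun_prop) fun t => norm_ne_zero_iff.mpr (uv0 t)
  have I1 : ∫ t in (0 : ℝ)..T, f1 t = T / 2 := integral_sin_sq' T w hw hw0
  have I2 : ∫ t in (0 : ℝ)..T, f2 t = T / 2 := integral_cos_sq' T w hw hw0
  have I3 : ∫ t in (0 : ℝ)..T, f3 t = T / C := by
    have h := integral_inv T w q k hw hw0 hqa hk0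
    rw [← eC] at h
    rw [← h]
    apply intervalIntegral.integral_congr
    intro t _
    show (B + A * Real.cos (w * t))⁻¹ = _
    rw [← eB, ← eA]
  have I4 : ∫ t in (0 : ℝ)..T, f4 t = T / C := by
    have h := integral_inv T w (-q) k hw hw0 (by rwa [abs_neg]) hk0
    rw [neg_sq, ← eC] at h
    rw [← h]
    apply intervalIntegral.integral_congr
    intro t _
    show (B - A * Real.cos (w * t))⁻¹ = _
    rw [← eB]
    congr 1
    rw [eA]; ring
  set K1 := w ^ 2 / (2 * (m 0 + m 1 + m 2)) * (m 0 * (m 1 + m 2) * B ^ 2) with hK1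
  set K2 := w ^ 2 / (2 * (m 0 + m 1 + m 2)) * ((m 0 * (m 1 + m 2) + 4 * (m 1 * m 2)) * C ^ 2) with hK2
  have hle : action m T (yy m A B C w) ≤ ∫ t in (0 : ℝ)..T, (K1 * f1 t + K2 * f2 t +
      m 0 * m 1 * f3 t + m 2 * m 0 * f4 t + m 1 * m 2 / (2 * A)) := by
    unfold action
    simp only [ikin]
    apply intervalIntegral.integral_mono_on hT.le
    · apply Continuous.intervalIntegrable
      have h1 : Continuous (fun t => (B + A * Real.cos (w * t))⁻¹) := cf3
      have h2 : Continuous (fun t => (B - A * Real.cos (w * t))⁻¹) := cf4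
      exact (by fun_prop : Continuous fun t => w ^ 2 / (2 * (m 0 + m 1 + m 2)) *
        (m 0 * (m 1 + m 2) * B ^ 2 * Real.sin (w * t) ^ 2 +
      (m 0 * (m 1 + m 2) + 4 * (m 1 * m 2)) * C ^ 2 * Real.cos (w * t) ^ 2)).add
        (((continuous_const.mul h1).add (continuous_const.mul cf5)).add (continuous_const.mul h2))
    · apply Continuous.intervalIntegrable
      fun_prop
    · intro t _
      have h1 : ‖uu A B C w t - vv A B C w t‖⁻¹ ≤ (2 * A)⁻¹ :=
        inv_anti₀ (by positivity) (norm_uv A B C w t hA)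
      have h2 : m 1 * m 2 * ‖uu A B C w t - vv A B C w t‖⁻¹ ≤ m 1 * m 2 / (2 * A) := by
        rw [div_eq_mul_inv]
        exact mul_le_mul_of_nonneg_left h1 (by positivity)
      have h3 : w ^ 2 / (2 * (m 0 + m 1 + m 2)) * (m 0 * (m 1 + m 2) * B ^ 2 * Real.sin (w * t) ^ 2 +
      (m 0 * (m 1 + m 2) + 4 * (m 1 * m 2)) * C ^ 2 * Real.cos (w * t) ^ 2) =
        K1 * f1 t + K2 * f2 t := by
        rw [hK1, hK2]; ring
      rw [h3]
      simp only [hf3, hf4]
      linarith
  refine hle.trans (le_of_eq ?_)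
  have i1 : ∀ (c : ℝ) (f : ℝ → ℝ), Continuous f →
      IntervalIntegrable (fun t => c * f t) MeasureTheory.volume 0 T := fun c f h =>
    (continuous_const.mul h).intervalIntegrable _ _
  rw [intervalIntegral.integral_add, intervalIntegral.integral_add, intervalIntegral.integral_add,
    intervalIntegral.integral_add, intervalIntegral.integral_const_mul,
    intervalIntegral.integral_const_mul, intervalIntegral.integral_const_mul,
    intervalIntegral.integral_const_mul, I1, I2, I3, I4]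
  · rw [hK1, hK2, hB2]
    simp only [intervalIntegral.integral_const, sub_zero, smul_eq_mul]
    field_simp
    ring
  all_goals
    apply Continuous.intervalIntegrable
    fun_prop

end

end Pool.Agent.L0h52.TB
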