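import Pool.Agent.Helper342.Hom.Final

set_option autoImplicit false

open Set Filter Topology Complex

namespace Pool.Agent.L0h52.TB

open Pool.Agent.Helper342.Hom

theorem iv2 : |2 * hnI 1 (dat 2) - (dat 2).headD 0| * 100000 ≤ 142131 * 2 ^ 80 := by decide +kernel
theorem iv3 : |2 * hnI 1 (dat 3) - (dat 3).headD 0| * 100000 ≤ 53203 * 2 ^ 80 := by decide +kernel
theorem iv4 : |2 * hnI 1 (dat 4) - (dat 4).headD 0| * 100000 ≤ 108315 * 2 ^ 80 := by decide +kernel
theorem iv5 : |2 * hnI 1 (dat 5) - (dat 5).headD 0| * 100000 ≤ 260431 * 2 ^ 80 := by decide +kernel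

theorem ivv (i : ℕ) (N : ℤ) (h : |2 * hnI 1 (dat i) - (dat i).headD 0| * 100000 ≤ N * 2 ^ 80) :
    |v i 0| ≤ N / 100000 := by
  rw [v_at_zero, abs_div, abs_of_pos (show (0:ℝ) < 2 ^ 80 by positivity), div_le_div_iff₀
    (by positivity) (by norm_num)]
  exact_mod_cast h

theorem iyy (i : Fin 8) (N : ℤ) (y : ℝ) (h : |2 * hnI 1 (dat i.val) - (dat i.val).headD 0| * 100000 ≤ N * 2 ^ 80)
    (hy : |y - v i.val 0| ≤ 1 / 2 ^ 37) : |y| ≤ (N + 1) / 100000 := by
  have h1 := ivv i.val N h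
  have h2 : |y| ≤ |y - v i.val 0| + |v i.val 0| := by
    have := abs_add_le (y - v i.val 0) (v i.val 0)
    rwa [sub_add_cancel] at this
  have h3 : (1 : ℝ) / 2 ^ 37 ≤ 1 / 100000 := by norm_num
  have h4 : ((N : ℝ) + 1) / 100000 = 1 / 100000 + N / 100000 := by ring
  rw [h4]
  linarith

attribute [local irreducible] v v' dat raw

theorem segment2 : ∃ x w : ℝ → ℂ × ℂ, Sol Gam x w 0 2 ∧ (∀ t ∈ Icc (0:ℝ) 2, NC (x t)) ∧
    (x 0).1 = 0 ∧ (w 0).2 = 0 ∧ Rc (x 2) = x 2 ∧ Rc (w 2) = -w 2 ∧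
    (∀ t ∈ Icc (0:ℝ) 2, 0 < ((x t).1 + (x t).2).re) ∧
    (∀ t ∈ Icc (0:ℝ) 2, 0 < ((x t).1 - (x t).2).im ∨ ((x t).1 - (x t).2).re ≠ 0) ∧
    0 < ((x 2).1 - (x 2).2).re ∧ ‖(x 0).2‖ ^ 2 ≤ 1518 ^ 2 / 1000 ^ 2 ∧ ‖(w 0).1‖ ^ 2 ≤ 796 / 100 := by
  obtain ⟨Y, hd, hn, ⟨y00, y01, y06, y07⟩, ⟨yp1, yp3, yp4, yp6⟩⟩ := exists_orbit
  have th0 : th 0 = 0 := by simp [th]
  have th2 : th 2 = Real.pi := by
    unfold th; rw [show (1:ℝ) - 2 = -1 by norm_num, Real.arccos_neg_one]
  have hYc : ContinuousOn Y (Icc 0 Real.pi) := fun θ hθ => (hd θ hθ).continuousAt.continuousWithinAt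
  have hYtc : Continuous (fun t => Y (th t)) := by
    rw [continuous_iff_continuousAt]
    intro t
    exact ContinuousAt.comp (g := Y) (hd _ (th_mem t)).continuousAt th_cont.continuousAt
  have hYd : ∀ t ∈ Ioo (0:ℝ) 2, HasDerivAt (fun t => Y (th t)) (f (Y (th t))) t := by
    intro t ht
    obtain ⟨h1, h2⟩ := th_deriv t ht
    have h3 := (hd _ (th_mem t)).scomp t h2
    refine h3.congr_deriv ?_
    rw [smul_smul, inv_mul_cancel₀ h1.ne', one_smul]
  have near : ∀ t, ∀ i : Fin 8, |Y (th t) i - v i.val (th t)| ≤ 1 / 2 ^ 37 := by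
    intro t i
    exact (norm_le_pi_norm (Y (th t) - Yt (th t)) i).trans (hn _ (th_mem t))
  have nadd : ∀ t, ∀ i j : Fin 8, |(Y (th t) i + Y (th t) j) - (v i.val (th t) + v j.val (th t))| ≤
      1 / 2 ^ 36 := by
    intro t i j
    have h1 := near t i
    have h2 := near t j
    have h3 : (Y (th t) i + Y (th t) j) - (v i.val (th t) + v j.val (th t)) =
      (Y (th t) i - v i.val (th t)) + (Y (th t) j - v j.val (th t)) := by ring
    rw [h3]
    refine (abs_add_le _ _).trans ?_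
    norm_num at h1 h2 ⊢
    linarith
  have nsub : ∀ t, ∀ i j : Fin 8, |(Y (th t) i - Y (th t) j) - (v i.val (th t) - v j.val (th t))| ≤
      1 / 2 ^ 36 := by
    intro t i j
    have h1 := near t i
    have h2 := near t j
    have h3 : (Y (th t) i - Y (th t) j) - (v i.val (th t) - v j.val (th t)) =
      (Y (th t) i - v i.val (th t)) - (Y (th t) j - v j.val (th t)) := by ring
    rw [h3]
    refine (abs_sub _ _).trans ?_
    norm_num at h1 h2 ⊢
    linarith
  have nsing : ∀ t, ∀ i : Fin 8, |Y (th t) i - v i.val (th t)| ≤ 1 / 2 ^ 36 := by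
    intro t i
    refine (near t i).trans (by norm_num)
  have hG : ∀ t, 0 < (Y (th t) 1 - Y (th t) 3) - Real.cos (th t) * (Y (th t) 0 - Y (th t) 2) := by
    intro t
    have h1 := bound_E8 128 8 c8 (th t)
    have h2 := (abs_le.mp h1).1
    have hc1 := Real.cos_le_one (th t)
    have hc2 := Real.neg_one_le_cos (th t)
    have e1 : pv 1 1 0 (th t) = v 1 (th t) - v 3 (th t) := rfl
    have e2 : pv 1 0 0 (th t) = v 0 (th t) - v 2 (th t) := rfl
    rw [e1, e2] at h2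
    have n1 : |(Y (th t) 1 - Y (th t) 3) - (v 1 (th t) - v 3 (th t))| ≤ 1 / 2 ^ 36 := nsub t 1 3
    have n2 : |(Y (th t) 0 - Y (th t) 2) - (v 0 (th t) - v 2 (th t))| ≤ 1 / 2 ^ 36 := nsub t 0 2
    have n3 : |Real.cos (th t) * ((Y (th t) 0 - Y (th t) 2) - (v 0 (th t) - v 2 (th t)))| ≤
        1 / 2 ^ 36 := by
      rw [abs_mul]
      calc _ ≤ 1 * (1 / 2 ^ 36 : ℝ) :=
            mul_le_mul (Real.abs_cos_le_one _) n2 (abs_nonneg _) (by norm_num)
        _ = _ := one_mul _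
    have h3 := (abs_le.mp n1).1
    have h4 := (abs_le.mp n3).2
    set g : ℝ := v 1 (th t) - v 3 (th t) - Real.cos (th t) * (v 0 (th t) - v 2 (th t)) with hg
    have h5 : 1 / 12 ≤ g := by
      have h6 : 1 / 2 ≤ g * (4 + 2 * Real.cos (th t)) := by linarith
      by_contra hneg
      push Not at hneg
      rcases le_or_gt g 0 with h7 | h7
      · nlinarith
      · nlinarith
    norm_num at h3 h4
    nlinarith
  refine ⟨fun t => Pl (Y (th t)), fun t => Ql (Y (th t)), ⟨?_, ?_, ?_, ?_⟩, ?_, ?_, ?_, ?_, ?_,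
    ?_, ?_, ?_, ?_, ?_⟩
  · exact (Pl.continuous.comp hYtc).continuousOn
  · exact (Ql.continuous.comp hYtc).continuousOn
  · intro t ht
    have h1 := Pl.hasFDerivAt.comp_hasDerivAt t (hYd t ht)
    refine h1.congr_deriv ?_
    exact Pl_f _
  · intro t ht
    have h1 := Ql.hasFDerivAt.comp_hasDerivAt t (hYd t ht)
    refine h1.congr_deriv ?_
    exact Ql_f _
  · intro t _
    refine ⟨?_, ?_, ?_⟩
    · exact near_ne (th t) 0 (by norm_num) _ _ (nadd t 0 2) (nadd t 1 3)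
    · exact near_ne (th t) 1 (by norm_num) _ _ (nsub t 0 2) (nsub t 1 3)
    · exact near_ne (th t) 2 (by norm_num) _ _ (nsing t 2) (nsing t 3)
  · simp only [Pl_apply, th0, y00, y01]; rfl
  · simp only [Ql_apply, th0, y06, y07]; rfl
  · simp only [Pl_apply, th2, Rc_apply, yp1, yp3]
    apply Prod.ext <;> apply Complex.ext <;> simp
  · simp only [Ql_apply, th2, Rc_apply, yp4, yp6]
    apply Prod.ext <;> apply Complex.ext <;> simp
  · intro t _
    have h1 := bound_E7 128 8 c7 (th t)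
    have h2 := (abs_le.mp h1).1
    have h3 := (abs_le.mp (nadd t 0 2)).1
    have h4 : ((Pl (Y (th t))).1 + (Pl (Y (th t))).2).re = Y (th t) 0 + Y (th t) 2 := rfl
    have h5 : pv 0 0 0 (th t) = v 0 (th t) + v 2 (th t) := rfl
    rw [h4]
    rw [h5] at h2
    have h6 : v (0 : Fin 8).val (th t) + v (2 : Fin 8).val (th t) = v 0 (th t) + v 2 (th t) := rfl
    rw [h6] at h3
    norm_num at h2 h3
    linarith
  · intro t _
    have h1 := hG t
    have e1 : ((Pl (Y (th t))).1 - (Pl (Y (th t))).2).im = Y (th t) 1 - Y (th t) 3 := rfl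
    have e2 : ((Pl (Y (th t))).1 - (Pl (Y (th t))).2).re = Y (th t) 0 - Y (th t) 2 := rfl
    rw [e1, e2]
    by_cases h : Y (th t) 0 - Y (th t) 2 = 0
    · left
      rw [h, mul_zero, sub_zero] at h1
      exact h1
    · right; exact h
  · have h1 := hG 2
    have e2 : ((Pl (Y (th 2))).1 - (Pl (Y (th 2))).2).re = Y (th 2) 0 - Y (th 2) 2 := rfl
    rw [e2]
    rw [th2, Real.cos_pi, yp1, yp3] at h1
    rw [th2]
    linarith
  · have e2 : (Pl (Y (th 0))).2 = ⟨Y (th 0) 2, Y (th 0) 3⟩ := rfl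
    have n2 := near 0 2
    have n3 := near 0 3
    rw [th0] at n2 n3
    have b2 := iyy 2 142131 _ iv2 n2
    have b3 := iyy 3 53203 _ iv3 n3
    rw [e2, ← Complex.normSq_eq_norm_sq, Complex.normSq_mk, th0]
    push_cast at b2 b3
    have s2 := sq_le_sq' (by linarith [abs_nonneg (Y 0 2), (abs_le.mp b2).1]) (abs_le.mp b2).2
    have s3 := sq_le_sq' (by linarith [abs_nonneg (Y 0 3), (abs_le.mp b3).1]) (abs_le.mp b3).2
    norm_num at s2 s3 ⊢
    nlinarith
  · have e2 : (Ql (Y (th 0))).1 = ⟨Y (th 0) 4, Y (th 0) 5⟩ := rfl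
    have n2 := near 0 4
    have n3 := near 0 5
    rw [th0] at n2 n3
    have b2 := iyy 4 108315 _ iv4 n2
    have b3 := iyy 5 260431 _ iv5 n3
    rw [e2, ← Complex.normSq_eq_norm_sq, Complex.normSq_mk, th0]
    push_cast at b2 b3
    have s2 := sq_le_sq' (by linarith [abs_nonneg (Y 0 4), (abs_le.mp b2).1]) (abs_le.mp b2).2
    have s3 := sq_le_sq' (by linarith [abs_nonneg (Y 0 5), (abs_le.mp b3).1]) (abs_le.mp b3).2
    norm_num at s2 s3 ⊢
    nlinarith

theorem full2 : ∃ X W : ℝ → ℂ × ℂ, (∀ t, X (t + 8) = X t) ∧ (∀ t, W (t + 8) = W t) ∧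
    (∀ t, HasDerivAt X (W t) t) ∧ (∀ t, HasDerivAt W (Gam (X t)) t) ∧ (∀ t, NC (X t)) ∧
    HasAngle (fun t => (X t).1 + (X t).2) 0 8 (2 * Real.pi) ∧
    HasAngle (fun t => (X t).1 - (X t).2) 0 8 (-(2 * Real.pi)) ∧
    HasAngle (fun t => (X t).2) 0 8 0 ∧ (X 0).1 = 0 ∧ (W 0).2 = 0 ∧
    ‖(X 0).2‖ ^ 2 ≤ 1518 ^ 2 / 1000 ^ 2 ∧ ‖(W 0).1‖ ^ 2 ≤ 796 / 100 := by
  obtain ⟨x, w, hs, hNC, hx0, hw0, hx2, hw2, hapos, hbslit, hb2, hn1, hn2⟩ := segment2
  have hpi := Real.pi_pos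
  -- reflect at 2
  set X1 := rx Rc 2 x with hX1
  set W1 := rw' Rc 2 w with hW1
  have s1 : Sol Gam X1 W1 0 4 := by
    have := reflect Gam Rc Gam_Rc 0 2 (by norm_num) x w hs hx2 hw2
      (fun t ht => Gam_cont _ (hNC t ht))
    norm_num at this
    exact this
  have X1lo : ∀ t ≤ 2, X1 t = x t := fun t h => rx_lo _ _ _ _ h
  have X1hi : ∀ t, 2 ≤ t → X1 t = Rc (x (4 - t)) := by
    intro t h
    have := rx_hi Rc 2 x t h hx2
    rw [hX1, this]; norm_num
  have NC1 : ∀ t ∈ Icc (0:ℝ) 4, NC (X1 t) := by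
    intro t ht
    rcases le_total t 2 with h | h
    · rw [X1lo t h]; exact hNC t ⟨ht.1, h⟩
    · rw [X1hi t h]; exact NC_Rc _ (hNC _ ⟨by linarith [ht.2], by linarith⟩)
  have X14 : X1 4 = Rc (x 0) := by rw [X1hi 4 (by norm_num)]; norm_num
  have W14 : W1 4 = -Rc (w 0) := by
    rw [hW1]; unfold rw'
    rw [if_neg (by norm_num)]; norm_num
  have hSx4 : Sc (X1 4) = X1 4 := by
    rw [X14, Rc_apply, Sc_apply, hx0]; simp
  have hSw4 : Sc (W1 4) = -W1 4 := by
    rw [W14, Rc_apply, map_neg, Sc_apply, hw0]; simp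
  -- reflect at 4
  set X2 := rx Sc 4 X1 with hX2
  set W2 := rw' Sc 4 W1 with hW2
  have s2 : Sol Gam X2 W2 0 8 := by
    have := reflect Gam Sc Gam_Sc 0 4 (by norm_num) X1 W1 s1 hSx4 hSw4
      (fun t ht => Gam_cont _ (NC1 t ht))
    norm_num at this
    exact this
  have X2lo : ∀ t ≤ 4, X2 t = X1 t := fun t h => rx_lo _ _ _ _ h
  have X2hi : ∀ t, 4 ≤ t → X2 t = Sc (X1 (8 - t)) := by
    intro t h
    have := rx_hi Sc 4 X1 t h hSx4
    rw [hX2, this]; norm_num
  have NC2 : ∀ t ∈ Icc (0:ℝ) 8, NC (X2 t) := by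
    intro t ht
    rcases le_total t 4 with h | h
    · rw [X2lo t h]; exact NC1 t ⟨ht.1, h⟩
    · rw [X2hi t h]; exact NC_Sc _ (NC1 _ ⟨by linarith [ht.2], by linarith⟩)
  have X20 : X2 0 = x 0 := by rw [X2lo 0 (by norm_num), X1lo 0 (by norm_num)]
  have X28 : X2 8 = x 0 := by
    rw [X2hi 8 (by norm_num), sub_self, X1lo 0 (by norm_num), Sc_apply]
    apply Prod.ext
    · simp [hx0]
    · rfl
  have W20 : W2 0 = w 0 := by
    rw [hW2]; unfold rw'; rw [if_pos (by norm_num), hW1]; unfold rw'; rw [if_pos (by norm_num)]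
  have W28 : W2 8 = w 0 := by
    rw [hW2]; unfold rw'; rw [if_neg (by norm_num)]
    norm_num
    rw [hW1]; unfold rw'; rw [if_pos (by norm_num), Sc_apply]
    apply Prod.ext
    · simp
    · simp [hw0]
  obtain ⟨X, W, pX, pW, eX, eW, dX, dW⟩ := periodic_ext Gam 8 (by norm_num) X2 W2 s2
    (by rw [X20, X28]) (by rw [W20, W28]) (fun t ht => Gam_cont _ (NC2 t ht))
  have NCX : ∀ t, NC (X t) := by
    intro t
    set m : ℤ := ⌊t / 8⌋ with hm
    have h1 : t - m * 8 ∈ Icc (0:ℝ) 8 := by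
      constructor
      · have := Int.floor_le (t / 8)
        linarith
      · have := Int.lt_floor_add_one (t / 8)
        linarith
    have hper : Function.Periodic X 8 := pX
    have h2 : X (t - m * 8) = X t := hper.sub_int_mul_eq m
    rw [← h2, eX _ h1]
    exact NC2 _ h1
  -- angles on [0,2]
  set a0 : ℝ → ℂ := fun t => (x t).1 + (x t).2 with ha0
  set b0 : ℝ → ℂ := fun t => (x t).1 - (x t).2 with hb0
  have ca0 : ContinuousOn a0 (Icc 0 2) := hs.cx.fst.add hs.cx.snd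
  have cb0 : ContinuousOn b0 (Icc 0 2) := hs.cx.fst.sub hs.cx.snd
  have m0 : (0:ℝ) ∈ Icc (0:ℝ) 2 := ⟨le_rfl, by norm_num⟩
  have m2 : (2:ℝ) ∈ Icc (0:ℝ) 2 := ⟨by norm_num, le_rfl⟩
  have hconj : (starRingEnd ℂ) (x 2).1 = (x 2).1 ∧ (starRingEnd ℂ) (x 2).2 = (x 2).2 := by
    rw [Rc_apply] at hx2
    exact ⟨congrArg Prod.fst hx2, congrArg Prod.snd hx2⟩
  have ra : a0 2 = ((a0 2).re : ℂ) := by
    symm
    rw [← Complex.conj_eq_iff_re, ha0]
    simp only
    rw [map_add, hconj.1, hconj.2]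
  have rb : b0 2 = ((b0 2).re : ℂ) := by
    symm
    rw [← Complex.conj_eq_iff_re, hb0]
    simp only
    rw [map_sub, hconj.1, hconj.2]
  have ara : Complex.arg (a0 2) = 0 := by
    rw [ra]; exact Complex.arg_ofReal_of_nonneg (hapos 2 m2).le
  have arb : Complex.arg (-Complex.I * b0 2) = -(Real.pi / 2) := by
    rw [rb, mul_comm, Complex.arg_real_mul _ hb2, Complex.arg_neg_I]
  set α : ℝ := Complex.arg (a0 0) with hα
  have hα2 : |α| < Real.pi / 2 := by
    rw [hα, Complex.abs_arg_lt_pi_div_two_iff]; left; exact hapos 0 m0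
  have b00 : -Complex.I * b0 0 = Complex.I * a0 0 := by
    simp only [ha0, hb0, hx0]; ring
  have a00 : a0 0 ≠ 0 := (hNC 0 m0).1
  have arb0 : Complex.arg (-Complex.I * b0 0) = Real.pi / 2 + α := by
    rw [b00, (Complex.arg_mul_eq_add_arg_iff Complex.I_ne_zero a00).mpr, Complex.arg_I]
    rw [Complex.arg_I]
    obtain ⟨h1, h2⟩ := abs_lt.mp hα2
    constructor <;> linarith
  have A : HasAngle a0 0 2 (-α) := by
    have h := HasAngle.of_slit ca0 (fun t ht => Complex.mem_slitPlane_iff.mpr (Or.inl (hapos t ht)))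
    rw [ara, zero_sub] at h
    exact h
  have B : HasAngle b0 0 2 (-Real.pi - α) := by
    have h := HasAngle.of_slit (γ := fun t => -Complex.I * b0 t) (continuousOn_const.mul cb0)
      (fun t ht => by
        rw [Complex.mem_slitPlane_iff]
        have e1 : (-Complex.I * b0 t).re = (b0 t).im := by simp
        have e2 : (-Complex.I * b0 t).im = -(b0 t).re := by simp
        rcases hbslit t ht with h | h
        · left; rw [e1]; exact h
        · right; rw [e2]; exact neg_ne_zero.mpr h)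
    have h1 := h.mul_const Complex.I
    have h2 : Complex.arg (-Complex.I * b0 2) - Complex.arg (-Complex.I * b0 0) =
        -Real.pi - α := by rw [arb, arb0]; ring
    rw [h2] at h1
    refine h1.congr fun t _ => ?_
    show b0 t = Complex.I * (-Complex.I * b0 t)
    rw [← mul_assoc, mul_neg, Complex.I_mul_I, neg_neg, one_mul]
  -- angles on [0,4]
  have A1 : HasAngle (fun t => (X1 t).1 + (X1 t).2) 0 4 (-α + -α) := by
    refine HasAngle.concat (b := 2) (by norm_num) (by norm_num) ?_ ?_ ?_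
    · rw [X1lo 2 le_rfl]; exact (hNC 2 m2).1
    · exact A.congr fun t ht => by rw [X1lo t ht.2]
    · have h := A.conj_rev 4
      rw [show (4:ℝ) - 2 = 2 by norm_num, show (4:ℝ) - 0 = 4 by norm_num] at h
      refine h.congr fun t ht => ?_
      rw [X1hi t ht.1, Rc_apply]
      simp [ha0]
  have B1 : HasAngle (fun t => (X1 t).1 - (X1 t).2) 0 4 ((-Real.pi - α) + (-Real.pi - α)) := by
    refine HasAngle.concat (b := 2) (by norm_num) (by norm_num) ?_ ?_ ?_
    · rw [X1lo 2 le_rfl]; exact (hNC 2 m2).2.1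
    · exact B.congr fun t ht => by rw [X1lo t ht.2]
    · have h := B.conj_rev 4
      rw [show (4:ℝ) - 2 = 2 by norm_num, show (4:ℝ) - 0 = 4 by norm_num] at h
      refine h.congr fun t ht => ?_
      rw [X1hi t ht.1, Rc_apply]
      simp [hb0]
  -- angles on [0,8]
  have m4 : (4:ℝ) ∈ Icc (0:ℝ) 4 := ⟨by norm_num, le_rfl⟩
  have z8 : (0:ℝ) ∈ Icc (0:ℝ) 8 := ⟨le_rfl, by norm_num⟩
  have eX0 : X 0 = x 0 := by rw [eX 0 z8, X20]
  have eW0 : W 0 = w 0 := by rw [eW 0 z8, W20]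
  refine ⟨X, W, pX, pW, dX, dW, NCX, ?_, ?_, ?_, by rw [eX0]; exact hx0, by rw [eW0]; exact hw0,
    by rw [eX0]; exact hn1, by rw [eW0]; exact hn2⟩
  · have h : HasAngle (fun t => (X2 t).1 + (X2 t).2) 0 8
        ((-α + -α) + -((-Real.pi - α) + (-Real.pi - α))) := by
      refine HasAngle.concat (b := 4) (by norm_num) (by norm_num) ?_ ?_ ?_
      · rw [X2lo 4 le_rfl]; exact (NC1 4 m4).1
      · exact A1.congr fun t ht => by rw [X2lo t ht.2]
      · have h := (B1.rev 8).mul_const (-1)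
        rw [show (8:ℝ) - 4 = 4 by norm_num, show (8:ℝ) - 0 = 8 by norm_num] at h
        refine h.congr fun t ht => ?_
        rw [X2hi t ht.1, Sc_apply]
        simp only; ring
    have e : (-α + -α) + -((-Real.pi - α) + (-Real.pi - α)) = 2 * Real.pi := by ring
    rw [e] at h
    exact h.congr fun t ht => by rw [eX t ht]
  · have h : HasAngle (fun t => (X2 t).1 - (X2 t).2) 0 8
        (((-Real.pi - α) + (-Real.pi - α)) + -(-α + -α)) := by
      refine HasAngle.concat (b := 4) (by norm_num) (by norm_num) ?_ ?_ ?_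
      · rw [X2lo 4 le_rfl]; exact (NC1 4 m4).2.1
      · exact B1.congr fun t ht => by rw [X2lo t ht.2]
      · have h := (A1.rev 8).mul_const (-1)
        rw [show (8:ℝ) - 4 = 4 by norm_num, show (8:ℝ) - 0 = 8 by norm_num] at h
        refine h.congr fun t ht => ?_
        rw [X2hi t ht.1, Sc_apply]
        simp only; ring
    have e : ((-Real.pi - α) + (-Real.pi - α)) + -(-α + -α) = -(2 * Real.pi) := by ring
    rw [e] at h
    exact h.congr fun t ht => by rw [eX t ht]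
  · have cW : Continuous W := continuous_iff_continuousAt.mpr fun t => (dW t).continuousAt
    have dX2 : ∀ t, HasDerivAt (fun t => (X t).2) (W t).2 t := fun t =>
      ((ContinuousLinearMap.snd ℝ ℂ ℂ).hasFDerivAt.comp_hasDerivAt t (dX t))
    obtain ⟨Δ, hΔ⟩ := HasAngle.exists_of_C1 dX2 (continuous_snd.comp cW) (fun t => (NCX t).2.2) 0 4
    have h : HasAngle (fun t => (X t).2) 0 8 (Δ + -Δ) := by
      refine HasAngle.concat (b := 4) (by norm_num) (by norm_num) (NCX 4).2.2 hΔ ?_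
      have h := hΔ.rev 8
      rw [show (8:ℝ) - 4 = 4 by norm_num, show (8:ℝ) - 0 = 8 by norm_num] at h
      refine h.congr fun t ht => ?_
      have h1 : t ∈ Icc (0:ℝ) 8 := ⟨by linarith [ht.1], ht.2⟩
      have h2 : 8 - t ∈ Icc (0:ℝ) 8 := ⟨by linarith [ht.2], by linarith [ht.1]⟩
      rw [eX t h1, eX _ h2, X2hi t ht.1, Sc_apply, X2lo (8 - t) (by linarith [ht.1])]
    rwa [add_neg_cancel] at h

end Pool.Agent.L0h52.TB
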