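import Pool.Agent.L0h52.TB.Defs

set_option autoImplicit false

open Set Filter Topology

namespace Pool.Agent.L0h52.TB

theorem hasDerivAt_inv_norm {r : ℝ → ℂ} {r' : ℂ} {t : ℝ} (h : HasDerivAt r r' t)
    (h0 : r t ≠ 0) :
    HasDerivAt (fun t => (‖r t‖)⁻¹) (-((inner ℝ (r t) (r')) / ‖r t‖ ^ 3)) t := by
  have hn : ‖r t‖ ≠ 0 := by simpa using h0
  have h1 : HasDerivAt (fun t => ‖r t‖ ^ 2) (2 * (inner ℝ (r t) (r'))) t := h.norm_sq
  have h2 : HasDerivAt (fun t => Real.sqrt (‖r t‖ ^ 2)) (2 * (inner ℝ (r t) (r')) / (2 * Real.sqrt (‖r t‖ ^ 2))) t :=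
    h1.sqrt (by positivity)
  have h3 : (fun t => Real.sqrt (‖r t‖ ^ 2)) = fun t => ‖r t‖ := by
    funext t; exact Real.sqrt_sq (norm_nonneg _)
  rw [h3, Real.sqrt_sq (norm_nonneg _)] at h2
  have h4 := h2.inv hn
  refine h4.congr_deriv ?_
  field_simp

theorem acc_smul (m : ℝ) (d : ℂ) :
    (m : ℂ) * d / ((‖d‖ : ℝ) : ℂ) ^ 3 = (m / ‖d‖ ^ 3 : ℝ) • d := by
  rw [Complex.real_smul]
  push_cast
  ring

variable {m : Fin 3 → ℝ} {x v : Fin 3 → ℝ → ℂ}

/-- the acceleration of body `i` -/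
noncomputable def acc (m : Fin 3 → ℝ) (x : Fin 3 → ℝ → ℂ) (i : Fin 3) (t : ℝ) : ℂ :=
  ∑ j ∈ Finset.univ.erase i, (m j : ℂ) * (x j t - x i t) / ((‖x j t - x i t‖ : ℝ) : ℂ) ^ 3

theorem acc0 (t : ℝ) : acc m x 0 t = (m 1 / ‖x 0 t - x 1 t‖ ^ 3) • (x 1 t - x 0 t) +
    (m 2 / ‖x 2 t - x 0 t‖ ^ 3) • (x 2 t - x 0 t) := by
  unfold acc
  have : (Finset.univ.erase (0 : Fin 3)) = {1, 2} := by decide
  rw [this, Finset.sum_pair (by decide), acc_smul, acc_smul, norm_sub_rev (x 1 t) (x 0 t)]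

theorem acc1 (t : ℝ) : acc m x 1 t = (m 0 / ‖x 0 t - x 1 t‖ ^ 3) • (x 0 t - x 1 t) +
    (m 2 / ‖x 1 t - x 2 t‖ ^ 3) • (x 2 t - x 1 t) := by
  unfold acc
  have : (Finset.univ.erase (1 : Fin 3)) = {0, 2} := by decide
  rw [this, Finset.sum_pair (by decide), acc_smul, acc_smul, norm_sub_rev (x 2 t) (x 1 t)]

theorem acc2 (t : ℝ) : acc m x 2 t = (m 0 / ‖x 2 t - x 0 t‖ ^ 3) • (x 0 t - x 2 t) +
    (m 1 / ‖x 1 t - x 2 t‖ ^ 3) • (x 1 t - x 2 t) := by
  unfold acc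
  have : (Finset.univ.erase (2 : Fin 3)) = {0, 1} := by decide
  rw [this, Finset.sum_pair (by decide), acc_smul, acc_smul, norm_sub_rev (x 0 t) (x 2 t)]

/-- kinetic energy in terms of velocities -/
noncomputable def kv (m : Fin 3 → ℝ) (v : Fin 3 → ℝ → ℂ) (t : ℝ) : ℝ :=
  1 / 2 * (m 0 * ‖v 0 t‖ ^ 2 + m 1 * ‖v 1 t‖ ^ 2 + m 2 * ‖v 2 t‖ ^ 2)

/-- virial function -/
noncomputable def vir (m : Fin 3 → ℝ) (x v : Fin 3 → ℝ → ℂ) (t : ℝ) : ℝ :=
  m 0 * (inner ℝ (x 0 t) (v 0 t)) + m 1 * (inner ℝ (x 1 t) (v 1 t)) + m 2 * (inner ℝ (x 2 t) (v 2 t))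

theorem energy_deriv (hx : ∀ i t, HasDerivAt (x i) (v i t) t)
    (hv : ∀ i t, HasDerivAt (v i) (acc m x i t) t) (hc : CollisionFree x) (t : ℝ) :
    HasDerivAt (fun t => kv m v t - pot m x t) 0 t := by
  have k0 : HasDerivAt (fun t => ‖v 0 t‖ ^ 2) (2 * (inner ℝ (v 0 t) (acc m x 0 t))) t := (hv 0 t).norm_sq
  have k1 : HasDerivAt (fun t => ‖v 1 t‖ ^ 2) (2 * (inner ℝ (v 1 t) (acc m x 1 t))) t := (hv 1 t).norm_sq
  have k2 : HasDerivAt (fun t => ‖v 2 t‖ ^ 2) (2 * (inner ℝ (v 2 t) (acc m x 2 t))) t := (hv 2 t).norm_sq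
  have p0 := hasDerivAt_inv_norm ((hx 0 t).sub (hx 1 t)) (sub_ne_zero.mpr (hc 0 1 (by decide) t))
  have p1 := hasDerivAt_inv_norm ((hx 1 t).sub (hx 2 t)) (sub_ne_zero.mpr (hc 1 2 (by decide) t))
  have p2 := hasDerivAt_inv_norm ((hx 2 t).sub (hx 0 t)) (sub_ne_zero.mpr (hc 2 0 (by decide) t))
  have hk := ((((k0.const_mul (m 0)).add (k1.const_mul (m 1))).add (k2.const_mul (m 2))).const_mul
    (1 / 2 : ℝ)).sub (((p0.const_mul (m 0 * m 1)).add (p1.const_mul (m 1 * m 2))).add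
      (p2.const_mul (m 2 * m 0)))
  refine hk.congr_deriv ?_
  rw [acc0, acc1, acc2]
  simp only [Pi.sub_apply, inner_add_right, inner_smul_right, inner_sub_right, inner_sub_left]
  have c1 : (inner ℝ (v 0 t) (x 0 t)) = (inner ℝ (x 0 t) (v 0 t)) := real_inner_comm _ _
  have c2 : (inner ℝ (v 0 t) (x 1 t)) = (inner ℝ (x 1 t) (v 0 t)) := real_inner_comm _ _
  have c3 : (inner ℝ (v 0 t) (x 2 t)) = (inner ℝ (x 2 t) (v 0 t)) := real_inner_comm _ _
  have c4 : (inner ℝ (v 1 t) (x 0 t)) = (inner ℝ (x 0 t) (v 1 t)) := real_inner_comm _ _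
  have c5 : (inner ℝ (v 1 t) (x 1 t)) = (inner ℝ (x 1 t) (v 1 t)) := real_inner_comm _ _
  have c6 : (inner ℝ (v 1 t) (x 2 t)) = (inner ℝ (x 2 t) (v 1 t)) := real_inner_comm _ _
  have c7 : (inner ℝ (v 2 t) (x 0 t)) = (inner ℝ (x 0 t) (v 2 t)) := real_inner_comm _ _
  have c8 : (inner ℝ (v 2 t) (x 1 t)) = (inner ℝ (x 1 t) (v 2 t)) := real_inner_comm _ _
  have c9 : (inner ℝ (v 2 t) (x 2 t)) = (inner ℝ (x 2 t) (v 2 t)) := real_inner_comm _ _
  rw [c1, c2, c3, c4, c5, c6, c7, c8, c9]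
  ring

theorem vir_deriv (hx : ∀ i t, HasDerivAt (x i) (v i t) t)
    (hv : ∀ i t, HasDerivAt (v i) (acc m x i t) t) (hc : CollisionFree x) (t : ℝ) :
    HasDerivAt (vir m x v) (2 * kv m v t - pot m x t) t := by
  have k0 : HasDerivAt (fun t => (inner ℝ (x 0 t) (v 0 t))) ((inner ℝ (x 0 t) (acc m x 0 t)) + (inner ℝ (v 0 t) (v 0 t))) t :=
    (hx 0 t).inner ℝ (hv 0 t)
  have k1 : HasDerivAt (fun t => (inner ℝ (x 1 t) (v 1 t))) ((inner ℝ (x 1 t) (acc m x 1 t)) + (inner ℝ (v 1 t) (v 1 t))) t :=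
    (hx 1 t).inner ℝ (hv 1 t)
  have k2 : HasDerivAt (fun t => (inner ℝ (x 2 t) (v 2 t))) ((inner ℝ (x 2 t) (acc m x 2 t)) + (inner ℝ (v 2 t) (v 2 t))) t :=
    (hx 2 t).inner ℝ (hv 2 t)
  have hk := ((k0.const_mul (m 0)).add (k1.const_mul (m 1))).add (k2.const_mul (m 2))
  refine hk.congr_deriv ?_
  have n0 : ‖x 0 t - x 1 t‖ ≠ 0 := by
    simpa using sub_ne_zero.mpr (hc 0 1 (by decide) t)
  have n1 : ‖x 1 t - x 2 t‖ ≠ 0 := by
    simpa using sub_ne_zero.mpr (hc 1 2 (by decide) t)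
  have n2 : ‖x 2 t - x 0 t‖ ≠ 0 := by
    simpa using sub_ne_zero.mpr (hc 2 0 (by decide) t)
  have q : ∀ (a b : ℂ), ‖a - b‖ ≠ 0 → 1 / ‖a - b‖ =
      ((inner ℝ (a) (a)) - 2 * (inner ℝ (a) (b)) + (inner ℝ (b) (b))) / ‖a - b‖ ^ 3 := by
    intro a b h
    have h1 : ‖a - b‖ ^ 2 = (inner ℝ (a) (a)) - 2 * (inner ℝ (a) (b)) + (inner ℝ (b) (b)) := by
      rw [← real_inner_self_eq_norm_sq, inner_sub_left, inner_sub_right, inner_sub_right,
        real_inner_comm a b]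
      ring
    rw [← h1]
    field_simp
  unfold kv pot
  rw [div_eq_mul_one_div (m 0 * m 1), div_eq_mul_one_div (m 1 * m 2),
    div_eq_mul_one_div (m 2 * m 0), q _ _ n0, q _ _ n1, q _ _ n2, acc0, acc1, acc2]
  simp only [inner_add_right, inner_smul_right, inner_sub_right, ← real_inner_self_eq_norm_sq (v _ t)]
  have c2 : (inner ℝ (x 1 t) (x 0 t)) = (inner ℝ (x 0 t) (x 1 t)) := real_inner_comm _ _
  have c3 : (inner ℝ (x 2 t) (x 0 t)) = (inner ℝ (x 0 t) (x 2 t)) := real_inner_comm _ _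
  have c4 : (inner ℝ (x 2 t) (x 1 t)) = (inner ℝ (x 1 t) (x 2 t)) := real_inner_comm _ _
  rw [c2, c3, c4]
  ring

/-- For a collision-free periodic solution the action is `-3 h T`, `h` the energy. -/
theorem action_eq {T : ℝ} (hx : ∀ i t, HasDerivAt (x i) (v i t) t)
    (hv : ∀ i t, HasDerivAt (v i) (acc m x i t) t) (hc : CollisionFree x)
    (hp : ∀ i t, x i (t + T) = x i t) :
    action m T x = -3 * (kv m v 0 - pot m x 0) * T := by
  have hkin : ∀ t, kin m x t = kv m v t := by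
    intro t
    unfold kin kv
    rw [Fin.sum_univ_three, (hx 0 t).deriv, (hx 1 t).deriv, (hx 2 t).deriv]
  have hpv : ∀ i t, v i (t + T) = v i t := by
    intro i t
    have h1 : HasDerivAt (fun s => x i (s + T)) (v i (t + T)) t := (hx i (t + T)).comp_add_const t T
    have h2 : (fun s => x i (s + T)) = x i := funext (hp i)
    rw [h2] at h1
    exact h1.unique (hx i t)
  have cx : ∀ i, Continuous (x i) := fun i =>
    continuous_iff_continuousAt.mpr fun t => (hx i t).continuousAt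
  have cv : ∀ i, Continuous (v i) := fun i =>
    continuous_iff_continuousAt.mpr fun t => (hv i t).continuousAt
  have ck : Continuous (kv m v) := by
    unfold kv
    have h0 := cv 0
    have h1 := cv 1
    have h2 := cv 2
    fun_prop
  have hE : ∀ t, kv m v t - pot m x t = kv m v 0 - pot m x 0 := by
    intro t
    exact is_const_of_deriv_eq_zero (f := fun t => kv m v t - pot m x t)
      (fun t => (energy_deriv hx hv hc t).differentiableAt)
      (fun t => (energy_deriv hx hv hc t).deriv) t 0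
  set h := kv m v 0 - pot m x 0 with hh
  have cp : Continuous (pot m x) := by
    have : pot m x = fun t => kv m v t - h := by
      funext t; linarith [hE t]
    rw [this]
    exact ck.sub continuous_const
  have hV : ∫ t in (0 : ℝ)..T, (2 * kv m v t - pot m x t) = 0 := by
    have h1 := intervalIntegral.integral_eq_sub_of_hasDerivAt (a := 0) (b := T)
      (fun t _ => vir_deriv hx hv hc t)
      (((ck.const_mul 2).sub cp).intervalIntegrable _ _)
    rw [h1]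
    have e : ∀ i, x i T = x i 0 := fun i => by have := hp i 0; rwa [zero_add] at this
    have e' : ∀ i, v i T = v i 0 := fun i => by have := hpv i 0; rwa [zero_add] at this
    unfold vir
    rw [e 0, e 1, e 2, e' 0, e' 1, e' 2, sub_self]
  unfold action
  have e1 : ∀ t, kin m x t + pot m x t = 2 * (2 * kv m v t - pot m x t) - 3 * h := by
    intro t
    rw [hkin t]
    linarith [hE t]
  simp only [e1]
  have i1 : IntervalIntegrable (fun t => 2 * (2 * kv m v t - pot m x t)) MeasureTheory.volume 0 T := by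
    apply Continuous.intervalIntegrable
    fun_prop
  have i2 : IntervalIntegrable (fun _ : ℝ => 3 * h) MeasureTheory.volume 0 T :=
    continuous_const.intervalIntegrable _ _
  rw [intervalIntegral.integral_sub i1 i2, intervalIntegral.integral_const_mul, hV]
  simp
  ring

/-- the same with the energy at any time -/
theorem action_eq' {T : ℝ} (hs : IsSolution m x) (hc : CollisionFree x)
    (hp : ∀ i t, x i (t + T) = x i t) (t : ℝ) :
    action m T x = -3 * (kin m x t - pot m x t) * T := by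
  obtain ⟨v, hx, hv⟩ := hs
  have hkin : kin m x t = kv m v t := by
    unfold kin kv
    rw [Fin.sum_univ_three, (hx 0 t).deriv, (hx 1 t).deriv, (hx 2 t).deriv]
  have hE : kv m v t - pot m x t = kv m v 0 - pot m x 0 :=
    is_const_of_deriv_eq_zero (f := fun t => kv m v t - pot m x t)
      (fun t => (energy_deriv hx hv hc t).differentiableAt)
      (fun t => (energy_deriv hx hv hc t).deriv) t 0
  rw [hkin, hE]
  exact action_eq hx hv hc hp

end Pool.Agent.L0h52.TB
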