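import Pool.Agent.L0h52.TB.Seg
import Pool.Agent.L0h52.TB.Virial

set_option autoImplicit false

namespace Pool.Agent.L0h52.TB

open Pool.Agent.Helper342.Hom in
theorem degree_of_angle {γ γ' : ℝ → ℂ} {T Δ : ℝ} (k : ℤ) (c : ℂ)
    (h : HasAngle γ 0 T Δ) (he : ∀ t, γ' t = c * γ t) (hk : Δ = 2 * Real.pi * k) :
    HasDegree γ' T k := by
  obtain ⟨φ, h1, h2, h3⟩ := h.mul_const c
  refine ⟨φ, h1, fun t ht => ?_, by rw [h3, hk]⟩
  rw [he t]; exact h2 t ht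

theorem le_of_sq_le_sq {a b : ℝ} (h : a ^ 2 ≤ b ^ 2) (hb : 0 ≤ b) : a ≤ b :=
  le_of_abs_le ((sq_le_sq.mp h).trans (le_of_eq (abs_of_nonneg hb)))

theorem sol : ∃ x : Fin 3 → ℝ → ℂ, IsSolution ![1 / 4, 1 / 2, 1 / 2] x ∧
    InClass ![1 / 4, 1 / 2, 1 / 2] 8 x ∧ 708 / 100 < action ![1 / 4, 1 / 2, 1 / 2] 8 x := by
  obtain ⟨X, W, pX, pW, dX, dW, NCX, hA, hB, hD, hX0, hW0, nX, nW⟩ := full2
  have dU : ∀ t, HasDerivAt (fun t => (X t).1) (W t).1 t := fun t =>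
    (ContinuousLinearMap.fst ℝ ℂ ℂ).hasFDerivAt.comp_hasDerivAt t (dX t)
  have dD : ∀ t, HasDerivAt (fun t => (X t).2) (W t).2 t := fun t =>
    (ContinuousLinearMap.snd ℝ ℂ ℂ).hasFDerivAt.comp_hasDerivAt t (dX t)
  have dV : ∀ t, HasDerivAt (fun t => (W t).1) (Pool.Agent.Helper342.Hom.Gam (X t)).1 t :=
    fun t => (ContinuousLinearMap.fst ℝ ℂ ℂ).hasFDerivAt.comp_hasDerivAt t (dW t)
  have dV2 : ∀ t, HasDerivAt (fun t => (W t).2) (Pool.Agent.Helper342.Hom.Gam (X t)).2 t :=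
    fun t => (ContinuousLinearMap.snd ℝ ℂ ℂ).hasFDerivAt.comp_hasDerivAt t (dW t)
  set x : Fin 3 → ℝ → ℂ := ![fun t => -(2 / 5) * (X t).1,
    fun t => (1 / 10) * (X t).1 + (1 / 2) * (X t).2,
    fun t => (1 / 10) * (X t).1 - (1 / 2) * (X t).2] with hx
  set v : Fin 3 → ℝ → ℂ := ![fun t => -(2 / 5) * (W t).1,
    fun t => (1 / 10) * (W t).1 + (1 / 2) * (W t).2,
    fun t => (1 / 10) * (W t).1 - (1 / 2) * (W t).2] with hv
  have x0 : ∀ t, x 0 t = -(2 / 5) * (X t).1 := fun t => rfl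
  have x1 : ∀ t, x 1 t = (1 / 10) * (X t).1 + (1 / 2) * (X t).2 := fun t => rfl
  have x2 : ∀ t, x 2 t = (1 / 10) * (X t).1 - (1 / 2) * (X t).2 := fun t => rfl
  have d10 : ∀ t, x 1 t - x 0 t = (1 / 2) * ((X t).1 + (X t).2) := fun t => by
    rw [x0, x1]; ring
  have d20 : ∀ t, x 2 t - x 0 t = (1 / 2) * ((X t).1 - (X t).2) := fun t => by
    rw [x0, x2]; ring
  have d12 : ∀ t, x 1 t - x 2 t = (X t).2 := fun t => by
    rw [x1, x2]; ring
  have n10 : ∀ t, x 1 t ≠ x 0 t := fun t h => by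
    have := d10 t
    rw [h, sub_self] at this
    have h2 := (NCX t).1
    apply h2
    linear_combination (-2 : ℂ) * this
  have n20 : ∀ t, x 2 t ≠ x 0 t := fun t h => by
    have := d20 t
    rw [h, sub_self] at this
    have h2 := (NCX t).2.1
    apply h2
    linear_combination (-2 : ℂ) * this
  have n12 : ∀ t, x 1 t ≠ x 2 t := fun t h => by
    have := d12 t
    rw [h, sub_self] at this
    exact (NCX t).2.2 this.symm
  have half : ∀ z : ℂ, (1 / 2 * z) / ((‖1 / 2 * z‖ : ℝ) : ℂ) ^ 3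
      = 4 * Pool.Agent.Helper342.Hom.Fc z := by
    intro z
    unfold Pool.Agent.Helper342.Hom.Fc
    rw [norm_mul]
    by_cases hz : z = 0
    · simp [hz]
    · have : ((‖z‖ : ℝ) : ℂ) ≠ 0 := by simpa using hz
      have h2 : ‖(1 / 2 : ℂ)‖ = 1 / 2 := by simp
      rw [h2]
      push_cast
      field_simp
      norm_num
  have hx' : ∀ i t, HasDerivAt (x i) (v i t) t := by
    intro i t
    fin_cases i
    · exact (dU t).const_mul _
    · exact ((dU t).const_mul _).add ((dD t).const_mul _)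
    · exact ((dU t).const_mul _).sub ((dD t).const_mul _)
  have hv' : ∀ i t, HasDerivAt (v i) (acc ![1 / 4, 1 / 2, 1 / 2] x i t) t := by
    intro i t
    have F10 : ∀ t, (x 1 t - x 0 t) / ((‖x 1 t - x 0 t‖ : ℝ) : ℂ) ^ 3 =
        4 * Pool.Agent.Helper342.Hom.Fc ((X t).1 + (X t).2) := fun t => by rw [d10, half]
    have F20 : ∀ t, (x 2 t - x 0 t) / ((‖x 2 t - x 0 t‖ : ℝ) : ℂ) ^ 3 =
        4 * Pool.Agent.Helper342.Hom.Fc ((X t).1 - (X t).2) := fun t => by rw [d20, half]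
    have F12 : ∀ t, (x 1 t - x 2 t) / ((‖x 1 t - x 2 t‖ : ℝ) : ℂ) ^ 3 =
        Pool.Agent.Helper342.Hom.Fc (X t).2 := fun t => by
      rw [d12]; rfl
    have sw : ∀ i j : Fin 3, (x i t - x j t) / ((‖x i t - x j t‖ : ℝ) : ℂ) ^ 3 =
        -((x j t - x i t) / ((‖x j t - x i t‖ : ℝ) : ℂ) ^ 3) := by
      intro i j
      rw [norm_sub_rev, ← neg_div, neg_sub]
    fin_cases i
    · refine ((dV t).const_mul (-(2 / 5) : ℂ)).congr_deriv ?_
      have : (Finset.univ.erase (0 : Fin 3)) = {1, 2} := by decide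
      show _ = ∑ j ∈ Finset.univ.erase (0 : Fin 3), _
      rw [this, Finset.sum_pair (by decide), mul_div_assoc, mul_div_assoc]
      show _ = (((![1 / 4, 1 / 2, 1 / 2] : Fin 3 → ℝ) 1 : ℝ) : ℂ) *
          ((x 1 t - x 0 t) / ((‖x 1 t - x 0 t‖ : ℝ) : ℂ) ^ 3) +
        (((![1 / 4, 1 / 2, 1 / 2] : Fin 3 → ℝ) 2 : ℝ) : ℂ) *
          ((x 2 t - x 0 t) / ((‖x 2 t - x 0 t‖ : ℝ) : ℂ) ^ 3)
      rw [F10, F20]
      simp [Pool.Agent.Helper342.Hom.Gam]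
      ring
    · refine (((dV t).const_mul (1 / 10 : ℂ)).add ((dV2 t).const_mul (1 / 2 : ℂ))).congr_deriv ?_
      have : (Finset.univ.erase (1 : Fin 3)) = {0, 2} := by decide
      show _ = ∑ j ∈ Finset.univ.erase (1 : Fin 3), _
      rw [this, Finset.sum_pair (by decide), mul_div_assoc, mul_div_assoc]
      show _ = (((![1 / 4, 1 / 2, 1 / 2] : Fin 3 → ℝ) 0 : ℝ) : ℂ) *
          ((x 0 t - x 1 t) / ((‖x 0 t - x 1 t‖ : ℝ) : ℂ) ^ 3) +
        (((![1 / 4, 1 / 2, 1 / 2] : Fin 3 → ℝ) 2 : ℝ) : ℂ) *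
          ((x 2 t - x 1 t) / ((‖x 2 t - x 1 t‖ : ℝ) : ℂ) ^ 3)
      rw [sw 0 1, sw 2 1, F10, F12]
      simp [Pool.Agent.Helper342.Hom.Gam]
      ring
    · refine (((dV t).const_mul (1 / 10 : ℂ)).sub ((dV2 t).const_mul (1 / 2 : ℂ))).congr_deriv ?_
      have : (Finset.univ.erase (2 : Fin 3)) = {0, 1} := by decide
      show _ = ∑ j ∈ Finset.univ.erase (2 : Fin 3), _
      rw [this, Finset.sum_pair (by decide), mul_div_assoc, mul_div_assoc]
      show _ = (((![1 / 4, 1 / 2, 1 / 2] : Fin 3 → ℝ) 0 : ℝ) : ℂ) *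
          ((x 0 t - x 2 t) / ((‖x 0 t - x 2 t‖ : ℝ) : ℂ) ^ 3) +
        (((![1 / 4, 1 / 2, 1 / 2] : Fin 3 → ℝ) 1 : ℝ) : ℂ) *
          ((x 1 t - x 2 t) / ((‖x 1 t - x 2 t‖ : ℝ) : ℂ) ^ 3)
      rw [sw 0 2, F20, F12]
      simp [Pool.Agent.Helper342.Hom.Gam]
      ring
  have hcf : CollisionFree x := by
    intro i j hij t
    fin_cases i <;> fin_cases j
    · exact absurd rfl hij
    · exact (n10 t).symm
    · exact (n20 t).symm
    · exact n10 t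
    · exact absurd rfl hij
    · exact n12 t
    · exact n20 t
    · exact (n12 t).symm
    · exact absurd rfl hij
  have hper : ∀ i t, x i (t + 8) = x i t := by
    intro i t
    fin_cases i
    · show x 0 (t + 8) = x 0 t
      rw [x0, x0, pX]
    · show x 1 (t + 8) = x 1 t
      rw [x1, x1, pX]
    · show x 2 (t + 8) = x 2 t
      rw [x2, x2, pX]
  refine ⟨x, ⟨v, hx', hv'⟩, ⟨?_, hper, hcf, ?_, ?_, ?_⟩, ?_⟩
  · intro t
    rw [Fin.sum_univ_three, x0, x1, x2]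
    simp
    ring
  · refine degree_of_angle 1 (-(1 / 2)) hA (fun t => ?_) (by push_cast; ring)
    show x 0 t - x 1 t = _
    rw [← neg_sub, d10]; ring
  · refine degree_of_angle 0 1 hD (fun t => ?_) (by push_cast; ring)
    show x 1 t - x 2 t = _
    rw [d12, one_mul]
  · refine degree_of_angle (-1) (1 / 2) hB (fun t => ?_) (by push_cast; ring)
    show x 2 t - x 0 t = _
    rw [d20]
  · rw [action_eq hx' hv' hcf hper]
    have e0 : v 0 0 = ((-(2 / 5) : ℝ) : ℂ) * (W 0).1 := by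
      show -(2 / 5) * (W 0).1 = _
      push_cast; ring
    have e1 : v 1 0 = ((1 / 10 : ℝ) : ℂ) * (W 0).1 := by
      show (1 / 10) * (W 0).1 + (1 / 2) * (W 0).2 = _
      rw [hW0]; push_cast; ring
    have e2 : v 2 0 = ((1 / 10 : ℝ) : ℂ) * (W 0).1 := by
      show (1 / 10) * (W 0).1 - (1 / 2) * (W 0).2 = _
      rw [hW0]; push_cast; ring
    have g01 : x 0 0 - x 1 0 = ((-(1 / 2) : ℝ) : ℂ) * (X 0).2 := by
      rw [x0, x1, hX0]; push_cast; ring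
    have g12 : x 1 0 - x 2 0 = (X 0).2 := d12 0
    have g20 : x 2 0 - x 0 0 = ((-(1 / 2) : ℝ) : ℂ) * (X 0).2 := by
      rw [x2, x0, hX0]; push_cast; ring
    have hX2 : (X 0).2 ≠ 0 := (NCX 0).2.2
    have hpos : 0 < ‖(X 0).2‖ := norm_pos_iff.mpr hX2
    have nX' : ‖(X 0).2‖ ≤ 1518 / 1000 := by
      have : ‖(X 0).2‖ ^ 2 ≤ (1518 / 1000) ^ 2 := by
        refine nX.trans (le_of_eq ?_)
        norm_num
      exact le_of_sq_le_sq this (by norm_num)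
    unfold kv pot
    rw [e0, e1, e2, g01, g12, g20]
    simp only [norm_mul, Complex.norm_real, Real.norm_eq_abs, abs_neg]
    rw [abs_of_pos (show (0:ℝ) < 2 / 5 by norm_num), abs_of_pos (show (0:ℝ) < 1 / 10 by norm_num),
      abs_of_pos (show (0:ℝ) < 1 / 2 by norm_num)]
    have q0 : (![1 / 4, 1 / 2, 1 / 2] : Fin 3 → ℝ) 0 = 1 / 4 := rfl
    have q1 : (![1 / 4, 1 / 2, 1 / 2] : Fin 3 → ℝ) 1 = 1 / 2 := rfl
    have q2 : (![1 / 4, 1 / 2, 1 / 2] : Fin 3 → ℝ) 2 = 1 / 2 := rfl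
    rw [q0, q1, q2]
    set r := ‖(X 0).2‖ with hr
    set s := ‖(W 0).1‖ with hs
    have h1 : (1:ℝ) / (1518 / 1000) ≤ 1 / r := one_div_le_one_div_of_le hpos nX'
    have h2 : -3 * (1 / 2 * (1 / 4 * (2 / 5 * s) ^ 2 + 1 / 2 * (1 / 10 * s) ^ 2 +
      1 / 2 * (1 / 10 * s) ^ 2) - (1 / 4 * (1 / 2) / (1 / 2 * r) + 1 / 2 * (1 / 2) / r +
      1 / 2 * (1 / 4) / (1 / 2 * r))) * 8 = 24 * (3 / 4 * (1 / r) - 1 / 40 * s ^ 2) := by
      field_simp
      ring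
    rw [h2]
    norm_num at h1 nW ⊢
    linarith

end Pool.Agent.L0h52.TB
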